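import Mathlib

/-!
# The Jordan decomposition in a semisimple Lie algebra
-/

set_option linter.unusedSectionVars false

namespace Pool.Agent.Lib.MP_d55432_al.GS

open LieAlgebra LieModule Module Set

variable {K : Type*} [Field K] [CharZero K] {L : Type*} [LieRing L] [LieAlgebra K L]
  [FiniteDimensional K L]

/-- `y` is the nilpotent part of `x`. -/
structure JN (K : Type*) [Field K] {L : Type*} [LieRing L] [LieAlgebra K L] (x y : L) : Prop where
  nil : IsNilpotent (ad K L y)
  ss : (ad K L (x - y)).IsSemisimple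
  comm : ⁅x, y⁆ = 0

theorem commute_ad {x y : L} (h : ⁅x, y⁆ = 0) : Commute (ad K L x) (ad K L y) := by
  apply LinearMap.ext
  intro v
  change ⁅x, ⁅y, v⁆⁆ = ⁅y, ⁅x, v⁆⁆
  rw [leibniz_lie, h, zero_lie, zero_add]

theorem ad_inj [LieAlgebra.IsKilling K L] {x : L} (h : ad K L x = 0) : x = 0 := by
  have h1 : x ∈ LinearMap.ker (killingForm K L) := by
    rw [LinearMap.mem_ker]
    apply LinearMap.ext
    intro y
    rw [killingForm_apply_apply, h, LinearMap.zero_comp, map_zero, LinearMap.zero_apply]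
  rw [LieAlgebra.IsKilling.ker_killingForm_eq_bot] at h1
  simpa using h1

theorem JN.unique [LieAlgebra.IsKilling K L] {x y z : L} (hy : JN K x y) (hz : JN K x z) :
    y = z := by
  have h1 : ∀ {w : L}, JN K x w → Commute (ad K L w) (ad K L (x - w)) := by
    intro w hw
    apply commute_ad
    rw [lie_sub, lie_self, sub_zero, ← lie_skew, hw.comm, neg_zero]
  have h2 := (Module.End.isNilpotent_isSemisimple_unique hy.nil hy.ss hz.nil hz.ss (h1 hy) (h1 hz)
    (by rw [← map_add, ← map_add, add_sub_cancel, add_sub_cancel])).1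
  have h3 : ad K L (y - z) = 0 := by rw [map_sub, h2, sub_self]
  exact sub_eq_zero.1 (ad_inj h3)

theorem JN.map (t : L ≃ₗ⁅K⁆ L) {x y : L} (h : JN K x y) : JN K (t x) (t y) where
  nil := by
    rw [← LieAlgebra.conj_ad_apply]
    exact h.nil.map t.toLinearEquiv.conjRingEquiv
  ss := by
    rw [← map_sub]
    refine (LinearEquiv.isSemisimple_iff (ad K L (x - y)) (ad K L (t (x - y)))
      t.toLinearEquiv ?_).1 h.ss
    apply LinearMap.ext
    intro v
    change t ⁅x - y, v⁆ = ⁅t (x - y), t v⁆
    rw [LieEquiv.map_lie]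
  comm := by rw [← LieEquiv.map_lie, h.comm, map_zero]

theorem exists_ad [IsAlgClosed K] [LieAlgebra.IsKilling K L] (x : L) {S N : Module.End K L}
    (hSN : ad K L x = N + S) (hc : Commute N S) (hN : IsNilpotent N) (hS : S.IsSemisimple) :
    ∃ y, JN K x y ∧ N = ad K L y := by
  have hc' : Commute (ad K L x) S := by
    rw [hSN]
    exact hc.add_left (Commute.refl S)
  have hN' : IsNilpotent (ad K L x - S) := by
    rw [hSN, add_sub_cancel_right]
    exact hN
  have aux : ∀ {μ : K} {y : L}, y ∈ (ad K L x).maxGenEigenspace μ → S y = μ • y := by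
    intro μ y hy
    exact Module.End.apply_eq_of_mem_of_comm_of_isFinitelySemisimple_of_isNil hy hc'
      hS.isFinitelySemisimple hN'
  have htop := Module.End.iSup_maxGenEigenspace_eq_top (ad K L x)
  have h_der : ∀ y z : L, S ⁅y, z⁆ = ⁅S y, z⁆ + ⁅y, S z⁆ := by
    intro y z
    have hy : y ∈ ⨆ μ, (ad K L x).maxGenEigenspace μ := by rw [htop]; exact Submodule.mem_top
    have hz : z ∈ ⨆ μ, (ad K L x).maxGenEigenspace μ := by rw [htop]; exact Submodule.mem_top
    induction hy using Submodule.iSup_induction' with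
    | mem μ y hy =>
      induction hz using Submodule.iSup_induction' with
      | mem ν z hz =>
        have hyz : ⁅y, z⁆ ∈ (ad K L x).maxGenEigenspace (μ + ν) :=
          lie_mem_maxGenEigenspace_toEnd hy hz
        rw [aux hy, aux hz, aux hyz, smul_lie, lie_smul, ← add_smul]
      | zero => simp
      | add _ _ _ _ h h' => simp only [lie_add, map_add, h, h']; abel
    | zero => simp
    | add _ _ _ _ h h' => simp only [add_lie, map_add, h, h']; abel
  have h_der' : ∀ y z : L, S ⁅y, z⁆ = ⁅y, S z⁆ - ⁅z, S y⁆ := by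
    intro y z
    rw [h_der, ← lie_skew (S y) z]
    abel
  let S' : LieDerivation K L L := ⟨S, h_der'⟩
  obtain ⟨w, hw⟩ := LieDerivation.IsKilling.exists_eq_ad S'
  have hSw : S = ad K L w := by
    rw [← LieDerivation.coe_ad_apply_eq_ad_apply w, hw]
  have hNw : N = ad K L (x - w) := by
    rw [map_sub, hSN, ← hSw, add_sub_cancel_right]
  refine ⟨x - w, ⟨?_, ?_, ?_⟩, hNw⟩
  · rw [← hNw]
    exact hN
  · rw [sub_sub_cancel, ← hSw]
    exact hS
  · have h1 : ad K L ⁅x, w⁆ = 0 := by
      apply LinearMap.ext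
      intro v
      have h2 := LinearMap.congr_fun hc' v
      rw [hSw] at h2
      change ⁅x, ⁅w, v⁆⁆ = ⁅w, ⁅x, v⁆⁆ at h2
      rw [ad_apply, lie_lie, h2, sub_self]
      rfl
    rw [lie_sub, lie_self, ad_inj h1, sub_zero]

end Pool.Agent.Lib.MP_d55432_al.GS
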