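import Pool.Agent.Lib.MP_d55432_al.GS.H87.Lead

/-!
# Nilpotent-valued polynomial maps which commute with the involutions vanish
-/

set_option linter.unusedSectionVars false

namespace Pool.Agent.Lib.MP_d55432_al.GS

open LieAlgebra LieModule Module Set

variable {K : Type*} [Field K] [CharZero K] {L : Type*} [LieRing L] [LieAlgebra K L]
  [FiniteDimensional K L] {σ : Type*}

/-- Polynomial maps with nilpotent values which commute with the automorphisms in a list. -/
structure Good (T : List (L ≃ₗ⁅K⁆ L)) (h : (σ → L) → L) : Prop where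
  poly : IsPolyMap K h
  equi : ∀ t ∈ T, ∀ a, h (fun i => t (a i)) = t (h a)
  nil : ∀ a, IsNilpotent (ad K L (h a))

/-- The projections to the eigenspaces of an involution. -/
noncomputable def pp (t : L ≃ₗ⁅K⁆ L) : L →ₗ[K] L :=
  (2 : K)⁻¹ • (LinearMap.id + (t : L →ₗ⁅K⁆ L).toLinearMap)

/-- The projections to the eigenspaces of an involution. -/
noncomputable def qq (t : L ≃ₗ⁅K⁆ L) : L →ₗ[K] L :=
  (2 : K)⁻¹ • (LinearMap.id - (t : L →ₗ⁅K⁆ L).toLinearMap)

theorem pp_apply (t : L ≃ₗ⁅K⁆ L) (x : L) : pp t x = (2 : K)⁻¹ • (x + t x) := rfl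

theorem qq_apply (t : L ≃ₗ⁅K⁆ L) (x : L) : qq t x = (2 : K)⁻¹ • (x - t x) := rfl

theorem step {T : List (L ≃ₗ⁅K⁆ L)} (hinv : ∀ t ∈ T, ∀ x, t (t x) = x)
    (hcomm : ∀ t ∈ T, ∀ s ∈ T, ∀ x, t (s x) = s (t x)) {h : (σ → L) → L} (hG : Good T h)
    (hne : ∃ a, h a ≠ 0) {t : L ≃ₗ⁅K⁆ L} (ht : t ∈ T) :
    ∃ (h' : (σ → L) → L) (ε : K), Good T h' ∧ (∃ a, h' a ≠ 0) ∧ ε * ε = 1 ∧
      (∀ a, t (h' a) = ε • h' a) ∧
      ∀ (s : L ≃ₗ⁅K⁆ L) (c : K), (∀ a, s (h a) = c • h a) → ∀ a, s (h' a) = c • h' a := by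
  classical
  have h2 : (2 : K) ≠ 0 := two_ne_zero
  obtain ⟨N, hk, hkp, hE⟩ := expand (pp t) (qq t) hG.poly
  have hsum : ∀ x : L, pp t x + (1 : K) • qq t x = x := by
    intro x
    rw [pp_apply, qq_apply, one_smul, ← smul_add, add_add_sub_cancel, ← two_smul K x, smul_smul,
      inv_mul_cancel₀ h2, one_smul]
  -- commutation with linear maps
  have hlin : ∀ (φ : L →ₗ[K] L) (θ : (σ → L) → σ → L), (∀ (s : K) a, h (fun i => pp t (θ a i) +
      s • qq t (θ a i)) = φ (h (fun i => pp t (a i) + s • qq t (a i)))) →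
      ∀ k < N, ∀ a, hk k (θ a) = φ (hk k a) := by
    intro φ θ hθ k hkN a
    refine coeff_eq (K := K) (v := fun k => hk k (θ a)) (w := fun k => φ (hk k a)) (N := N)
      (fun s _ => ?_) k hkN
    have h1 := hθ s a
    rw [hE, hE, map_sum] at h1
    rw [h1]
    exact Finset.sum_congr rfl fun k _ => map_smul _ _ _
  have hex : ∃ k, k < N ∧ ∃ a, hk k a ≠ 0 := by
    by_contra hcon
    push Not at hcon
    obtain ⟨a, ha⟩ := hne
    apply ha
    have h1 := hE 1 a
    simp only [hsum] at h1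
    rw [h1]
    exact Finset.sum_eq_zero fun k hk' => by rw [hcon k (Finset.mem_range.1 hk') a, smul_zero]
  obtain ⟨hk0N, hk0⟩ := Nat.find_spec hex
  have hmin : ∀ k < Nat.find hex, ∀ a, hk k a = 0 := by
    intro k hk' a
    have h1 := Nat.find_min hex hk'
    by_contra h3
    exact h1 ⟨hk'.trans hk0N, a, h3⟩
  set k₀ := Nat.find hex with hk₀
  refine ⟨hk k₀, (-1) ^ k₀, ⟨hkp k₀, ?_, ?_⟩, hk0, ?_, ?_, ?_⟩
  · intro u hu a
    refine hlin (u : L →ₗ⁅K⁆ L).toLinearMap (fun a i => u (a i)) ?_ k₀ hk0N a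
    intro s a
    have h1 := hG.equi u hu (fun i => pp t (a i) + s • qq t (a i))
    change _ = u (h fun i => pp t (a i) + s • qq t (a i))
    rw [← h1]
    congr 1
    funext i
    rw [map_add, map_smul, pp_apply, qq_apply, pp_apply, qq_apply, map_smul, map_smul, map_add,
      map_sub, hcomm u hu t ht]
  · intro a
    let g : K → L := fun s => ∑ j ∈ Finset.range (N - k₀), s ^ j • hk (k₀ + j) a
    have hg : ∀ s, h (fun i => pp t (a i) + s • qq t (a i)) = s ^ k₀ • g s := by
      intro s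
      rw [hE]
      have h3 : N = k₀ + (N - k₀) := by omega
      conv_lhs => rw [h3]
      rw [Finset.sum_range_add, Finset.sum_eq_zero
        (fun k hk' => by rw [hmin k (Finset.mem_range.1 hk') a, smul_zero]), zero_add,
        Finset.smul_sum]
      exact Finset.sum_congr rfl fun j _ => by rw [smul_smul, pow_add]
    have hg0 : g 0 = hk k₀ a := by
      change ∑ j ∈ Finset.range (N - k₀), (0 : K) ^ j • hk (k₀ + j) a = _
      rw [Finset.sum_eq_single 0]
      · rw [pow_zero, one_smul, add_zero]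
      · intro j _ hj
        rw [zero_pow hj, zero_smul]
      · intro h3
        exact absurd (Finset.mem_range.2 (Nat.sub_pos_of_lt hk0N)) h3
    rw [← hg0]
    refine nil_limit (IsPC.sum (N - k₀) fun j => hk (k₀ + j) a) fun s hs => ?_
    have h3 := hG.nil (fun i => pp t (a i) + s • qq t (a i))
    have h4 : g s = (s ^ k₀)⁻¹ • h (fun i => pp t (a i) + s • qq t (a i)) := by
      rw [hg s, smul_smul, inv_mul_cancel₀ (pow_ne_zero _ hs), one_smul]
    change IsNilpotent (ad K L (g s))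
    rw [h4, map_smul]
    exact h3.smul _
  · rw [← mul_pow, neg_one_mul, neg_neg, one_pow]
  · intro a
    have h3 : ∀ k < N, t (hk k a) = (-1 : K) ^ k • hk k a := by
      intro k hkN
      refine coeff_eq (K := K) (v := fun k => t (hk k a)) (w := fun k => (-1 : K) ^ k • hk k a)
        (N := N) (fun s _ => ?_) k hkN
      have h4 := hG.equi t ht (fun i => pp t (a i) + s • qq t (a i))
      have h5 : (fun i => t (pp t (a i) + s • qq t (a i))) =
          fun i => pp t (a i) + (-s) • qq t (a i) := by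
        funext i
        rw [map_add, map_smul, pp_apply, qq_apply, map_smul, map_smul, map_add, map_sub,
          hinv t ht, add_comm (t (a i)) (a i), neg_smul, ← smul_neg, ← smul_neg, neg_sub]
      rw [h5, hE, hE, map_sum] at h4
      have h6 : ∑ k ∈ Finset.range N, s ^ k • t (hk k a) =
          ∑ k ∈ Finset.range N, t (s ^ k • hk k a) :=
        Finset.sum_congr rfl fun k _ => (map_smul _ _ _).symm
      rw [h6, ← h4]
      refine Finset.sum_congr rfl fun k _ => ?_
      rw [smul_smul, ← mul_pow, mul_neg_one]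
    exact h3 k₀ hk0N
  · intro s c hs a
    have h3 : ∀ k < N, s (hk k a) = c • hk k a := by
      intro k hkN
      refine coeff_eq (K := K) (v := fun k => s (hk k a)) (w := fun k => c • hk k a)
        (N := N) (fun z _ => ?_) k hkN
      have h4 := hs (fun i => pp t (a i) + z • qq t (a i))
      rw [hE, map_sum, Finset.smul_sum] at h4
      have h6 : ∑ k ∈ Finset.range N, z ^ k • s (hk k a) =
          ∑ k ∈ Finset.range N, s (z ^ k • hk k a) :=
        Finset.sum_congr rfl fun k _ => (map_smul _ _ _).symm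
      rw [h6, h4]
      exact Finset.sum_congr rfl fun k _ => smul_comm _ _ _
    exact h3 k₀ hk0N

theorem reduce {T : List (L ≃ₗ⁅K⁆ L)} (hinv : ∀ t ∈ T, ∀ x, t (t x) = x)
    (hcomm : ∀ t ∈ T, ∀ s ∈ T, ∀ x, t (s x) = s (t x)) {h : (σ → L) → L} (hG : Good T h)
    (hne : ∃ a, h a ≠ 0) (l : List (L ≃ₗ⁅K⁆ L)) (hl : ∀ t ∈ l, t ∈ T) :
    ∃ (h' : (σ → L) → L) (χ : (L ≃ₗ⁅K⁆ L) → K), Good T h' ∧ (∃ a, h' a ≠ 0) ∧
      ∀ t ∈ l, χ t * χ t = 1 ∧ ∀ a, t (h' a) = χ t • h' a := by
  classical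
  induction l with
  | nil => exact ⟨h, fun _ => 1, hG, hne, by simp⟩
  | cons t l ih =>
    obtain ⟨h', χ, hG', hne', hχ⟩ := ih fun s hs => hl s (List.mem_cons_of_mem _ hs)
    obtain ⟨h'', ε, hG'', hne'', hε, ht, hs⟩ :=
      step hinv hcomm hG' hne' (hl t List.mem_cons_self)
    refine ⟨h'', Function.update χ t ε, hG'', hne'', fun s hsl => ?_⟩
    by_cases hst : s = t
    · subst hst
      rw [Function.update_self]
      exact ⟨hε, ht⟩
    · rw [Function.update_of_ne hst]
      have h1 := hχ s ((List.mem_cons.1 hsl).resolve_left hst)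
      exact ⟨h1.1, hs s (χ s) h1.2⟩

/-- (A') A polynomial map with nilpotent values which commutes with the involutions vanishes. -/
theorem eq_zero_of_good [LieAlgebra.IsKilling K L] {T : List (L ≃ₗ⁅K⁆ L)} (hT : IsInvol T)
    {h : (σ → L) → L} (hG : Good T h) (a : σ → L) : h a = 0 := by
  by_contra hne
  obtain ⟨h', χ, hG', ⟨b, hb⟩, hχ⟩ := reduce hT.invol hT.comm hG ⟨a, hne⟩ T fun t ht => ht
  exact hb (nil_eq_zero hT χ (fun t ht => (hχ t ht).1) (fun t ht => (hχ t ht).2 b) (hG'.nil b))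

end Pool.Agent.Lib.MP_d55432_al.GS
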