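import Mathlib

/-!
# The Jordan decomposition of a matrix of polynomials
-/

set_option linter.unusedSectionVars false

namespace Pool.Agent.Lib.MP_d55432_al.GS

open Polynomial

section Loc

variable {R F K : Type*} [CommRing R] [IsDomain R] [Field F] [Algebra R F] [IsFractionRing R F]
  [Field K]

/-- The elements which do not vanish at a point. -/
def nv (φ : R →+* K) : Submonoid R where
  carrier := {r | φ r ≠ 0}
  mul_mem' := by
    intro a b ha hb
    change φ (a * b) ≠ 0
    rw [map_mul]
    exact mul_ne_zero ha hb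
  one_mem' := by
    change φ 1 ≠ 0
    rw [map_one]
    exact one_ne_zero

theorem nv_unit (φ : R →+* K) (r : nv φ) : IsUnit (φ r) := isUnit_iff_ne_zero.2 r.2

theorem nv_unitF (φ : R →+* K) (r : nv φ) : IsUnit (algebraMap R F r) := by
  rw [isUnit_iff_ne_zero]
  intro h
  have h1 : (r : R) = 0 := IsFractionRing.injective R F (by rw [h, map_zero])
  apply r.2
  rw [h1, map_zero]

/-- Evaluation on the local ring. -/
noncomputable def toK (φ : R →+* K) : Localization (nv φ) →+* K :=
  IsLocalization.lift (M := nv φ) (nv_unit φ)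

/-- The embedding of the local ring in the fraction field. -/
noncomputable def toF (F : Type*) [Field F] [Algebra R F] [IsFractionRing R F] (φ : R →+* K) :
    Localization (nv φ) →+* F :=
  IsLocalization.lift (M := nv φ) (g := algebraMap R F) (nv_unitF φ)

theorem toK_algebraMap (φ : R →+* K) (r : R) :
    toK φ (algebraMap R (Localization (nv φ)) r) = φ r :=
  IsLocalization.lift_eq _ _

theorem toF_algebraMap (φ : R →+* K) (r : R) :
    toF F φ (algebraMap R (Localization (nv φ)) r) = algebraMap R F r :=
  IsLocalization.lift_eq _ _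

theorem toF_injective (φ : R →+* K) : Function.Injective (toF F φ) := by
  rw [injective_iff_map_eq_zero]
  intro x hx
  obtain ⟨⟨r, s⟩, hrs⟩ := IsLocalization.surj (nv φ) x
  have h1 := congrArg (toF F φ) hrs
  rw [map_mul, hx, zero_mul, toF_algebraMap] at h1
  have h2 : r = 0 := IsFractionRing.injective R F (by rw [← h1, map_zero])
  change x * algebraMap R (Localization (nv φ)) (s : R) =
    algebraMap R (Localization (nv φ)) r at hrs
  rw [h2, map_zero] at hrs
  have h3 : IsUnit (algebraMap R (Localization (nv φ)) (s : R)) :=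
    IsLocalization.map_units (Localization (nv φ)) s
  exact (h3.mul_left_eq_zero).1 hrs

theorem mem_range (φ : R →+* K) {c : R} (hc : φ c ≠ 0) {x : F} {r : R}
    (h : algebraMap R F c * x = algebraMap R F r) : x ∈ (toF F φ).range := by
  have h3 : IsUnit (algebraMap R (Localization (nv φ)) c) :=
    IsLocalization.map_units (Localization (nv φ)) (⟨c, hc⟩ : nv φ)
  obtain ⟨u, hu⟩ := h3
  refine ⟨(u⁻¹ : (Localization (nv φ))ˣ) * algebraMap R (Localization (nv φ)) r, ?_⟩
  have h4 : algebraMap R F c ≠ 0 := (nv_unitF (F := F) φ ⟨c, hc⟩).ne_zero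
  apply mul_left_cancel₀ h4
  rw [h, ← toF_algebraMap φ c, ← map_mul, ← hu, ← mul_assoc, Units.mul_inv, one_mul,
    toF_algebraMap]

end Loc

theorem mapMatrix_aeval {A B : Type*} [CommRing A] [CommRing B] (φ : A →+* B) {n : ℕ}
    (m : Matrix (Fin n) (Fin n) A) (p : A[X]) :
    φ.mapMatrix (aeval m p) = aeval (φ.mapMatrix m) (p.map φ) := by
  refine Polynomial.map_aeval_eq_aeval_map ?_ p m
  ext a i j
  simp [Matrix.algebraMap_matrix_apply]
  split_ifs <;> simp

theorem generic_jordan {K : Type*} [Field K] [CharZero K] {σ : Type*} {n : ℕ}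
    (Λ : Matrix (Fin n) (Fin n) (MvPolynomial σ K)) :
    ∃ (c : MvPolynomial σ K) (S : Matrix (Fin n) (Fin n) (MvPolynomial σ K)), c ≠ 0 ∧
      ∀ pt : σ → K, MvPolynomial.eval pt c ≠ 0 → ∃ S₀ : Matrix (Fin n) (Fin n) K,
        (∀ i j, MvPolynomial.eval pt c * S₀ i j = MvPolynomial.eval pt (S i j)) ∧
        Module.End.IsSemisimple (Matrix.toLin' S₀ : Module.End K (Fin n → K)) ∧
        IsNilpotent (Λ.map (MvPolynomial.eval pt) - S₀) ∧
        Commute (Λ.map (MvPolynomial.eval pt)) S₀ := by
  classical
  let R := MvPolynomial σ K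
  let F := FractionRing R
  have hchar : CharZero F := by
    have h1 : CharZero R := inferInstance
    exact charZero_of_injective_algebraMap (IsFractionRing.injective R F)
  let ΛF : Matrix (Fin n) (Fin n) F := Λ.map (algebraMap R F)
  obtain ⟨nn, hnn, ss, hss', hnil, hss, hsum⟩ :=
    Module.End.exists_isNilpotent_isSemisimple
      (f := (Matrix.toLin' ΛF : Module.End F (Fin n → F)))
  have hcomm : Commute (Matrix.toLin' ΛF) ss := Algebra.commute_of_mem_adjoin_self hss'
  obtain ⟨k, hk⟩ := hnil
  let M : Matrix (Fin n) (Fin n) F := LinearMap.toMatrix' ss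
  have hM : Matrix.toLin' M = ss := Matrix.toLin'_toMatrix' ss
  have hMcomm : ΛF * M = M * ΛF := by
    apply Matrix.toLin'.injective
    rw [Matrix.toLin'_mul, Matrix.toLin'_mul, hM]
    exact hcomm
  have hMnil : (ΛF - M) ^ k = 0 := by
    have h1 : Matrix.toLin' (ΛF - M) = nn := by
      rw [map_sub, hM, hsum, add_sub_cancel_right]
    have h2 : Matrix.toLinAlgEquiv' ((ΛF - M) ^ k) = 0 := by
      rw [map_pow]
      change (Matrix.toLin' (ΛF - M)) ^ k = 0
      rw [h1, hk]
    exact (map_eq_zero_iff _ (Matrix.toLinAlgEquiv' (R := F) (n := Fin n)).injective).1 h2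
  let g := minpoly F ss
  have hgsep : g.Separable := by
    rw [PerfectField.separable_iff_squarefree]
    exact hss.minpoly_squarefree
  obtain ⟨u, v, huv⟩ := hgsep
  have hgM : aeval M g = 0 := by
    have h1 : Matrix.toLinAlgEquiv' (aeval M g) = 0 := by
      rw [← Polynomial.aeval_algHom_apply]
      change aeval (Matrix.toLin' M) g = 0
      rw [hM]
      exact minpoly.aeval F ss
    exact (map_eq_zero_iff _ (Matrix.toLinAlgEquiv' (R := F) (n := Fin n)).injective).1 h1
  -- common denominator
  let E : Finset F := (Finset.univ.image fun ij : Fin n × Fin n => M ij.1 ij.2) ∪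
    (g.support.image g.coeff ∪ (u.support.image u.coeff ∪ v.support.image v.coeff))
  obtain ⟨b, hb⟩ := IsLocalization.exist_integer_multiples_of_finset (nonZeroDivisors R) E
  have hb0 : (b : R) ≠ 0 := nonZeroDivisors.ne_zero b.2
  have hb' : ∀ x ∈ E, ∃ r : R, algebraMap R F b * x = algebraMap R F r := by
    intro x hx
    obtain ⟨r, hr⟩ := hb x hx
    refine ⟨r, ?_⟩
    rw [hr, Algebra.smul_def]
  have hME : ∀ i j, M i j ∈ E := fun i j =>
    Finset.mem_union_left _ (Finset.mem_image.2 ⟨(i, j), Finset.mem_univ _, rfl⟩)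
  choose S hS using fun i j => hb' (M i j) (hME i j)
  refine ⟨b, Matrix.of S, hb0, fun pt hpt => ?_⟩
  let φ : R →+* K := MvPolynomial.eval pt
  have hrange : ∀ x ∈ E, x ∈ (toF F φ).range := by
    intro x hx
    obtain ⟨r, hr⟩ := hb' x hx
    exact mem_range φ hpt hr
  have hpoly : ∀ p : F[X], (∀ j ∈ p.support, p.coeff j ∈ E) →
      ∃ q : (Localization (nv φ))[X], q.map (toF F φ) = p := by
    intro p hp
    have h1 : p ∈ Polynomial.lifts (toF F φ) := by
      rw [Polynomial.lifts_iff_coeff_lifts]
      intro j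
      by_cases hj : j ∈ p.support
      · exact hrange _ (hp j hj)
      · rw [Polynomial.notMem_support_iff.1 hj]
        exact ⟨0, map_zero _⟩
    exact (Polynomial.mem_lifts p).1 h1
  obtain ⟨g', hg'⟩ := hpoly g fun j hj => Finset.mem_union_right _
    (Finset.mem_union_left _ (Finset.mem_image_of_mem _ hj))
  obtain ⟨u', hu'⟩ := hpoly u fun j hj => Finset.mem_union_right _
    (Finset.mem_union_right _ (Finset.mem_union_left _ (Finset.mem_image_of_mem _ hj)))
  obtain ⟨v', hv'⟩ := hpoly v fun j hj => Finset.mem_union_right _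
    (Finset.mem_union_right _ (Finset.mem_union_right _ (Finset.mem_image_of_mem _ hj)))
  choose m hm using fun i j => hrange (M i j) (hME i j)
  let m' : Matrix (Fin n) (Fin n) (Localization (nv φ)) := Matrix.of m
  have hm' : (toF F φ).mapMatrix m' = M := by
    ext i j
    exact hm i j
  let Λ' : Matrix (Fin n) (Fin n) (Localization (nv φ)) := Λ.map (algebraMap R _)
  have hΛ' : (toF F φ).mapMatrix Λ' = ΛF := by
    ext i j
    exact toF_algebraMap φ (Λ i j)
  have hinj : ∀ A B : Matrix (Fin n) (Fin n) (Localization (nv φ)),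
      (toF F φ).mapMatrix A = (toF F φ).mapMatrix B → A = B := by
    intro A B hAB
    ext i j
    apply toF_injective (F := F) φ
    exact congrFun (congrFun hAB i) j
  have e1 : u' * g' + v' * derivative g' = 1 := by
    apply Polynomial.map_injective _ (toF_injective (F := F) φ)
    rw [Polynomial.map_add, Polynomial.map_mul, Polynomial.map_mul, Polynomial.map_one,
      ← Polynomial.derivative_map, hg', hu', hv']
    exact huv
  have e2 : aeval m' g' = 0 := by
    apply hinj
    rw [mapMatrix_aeval, hm', hg', hgM, map_zero]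
  have e3 : (Λ' - m') ^ k = 0 := by
    apply hinj
    rw [map_pow, map_sub, hm', hΛ', hMnil, map_zero]
  have e4 : Λ' * m' = m' * Λ' := by
    apply hinj
    rw [map_mul, map_mul, hm', hΛ', hMcomm]
  have hΛK : (toK φ).mapMatrix Λ' = Λ.map (MvPolynomial.eval pt) := by
    ext i j
    exact toK_algebraMap φ (Λ i j)
  refine ⟨(toK φ).mapMatrix m', ?_, ?_, ?_, ?_⟩
  · intro i j
    have h1 : algebraMap R (Localization (nv φ)) b * m i j =
        algebraMap R (Localization (nv φ)) (S i j) := by
      apply toF_injective (F := F) φ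
      rw [map_mul, toF_algebraMap, toF_algebraMap]
      have h2 := hm i j
      rw [h2]
      exact hS i j
    have h2 := congrArg (toK φ) h1
    rw [map_mul, toK_algebraMap, toK_algebraMap] at h2
    exact h2
  · have h1 : (g'.map (toK φ)).Separable := by
      refine ⟨u'.map (toK φ), v'.map (toK φ), ?_⟩
      have h2 := congrArg (Polynomial.map (toK φ)) e1
      rw [Polynomial.map_add, Polynomial.map_mul, Polynomial.map_mul, Polynomial.map_one,
        ← Polynomial.derivative_map] at h2
      exact h2
    refine Module.End.isSemisimple_of_squarefree_aeval_eq_zero h1.squarefree ?_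
    have h3 : aeval ((toK φ).mapMatrix m') (g'.map (toK φ)) = 0 := by
      rw [← mapMatrix_aeval, e2, map_zero]
    have h4 : Matrix.toLinAlgEquiv' (aeval ((toK φ).mapMatrix m') (g'.map (toK φ))) = 0 := by
      rw [h3, map_zero]
    rw [← Polynomial.aeval_algHom_apply] at h4
    exact h4
  · refine ⟨k, ?_⟩
    rw [← hΛK, ← map_sub, ← map_pow, e3, map_zero]
  · rw [← hΛK]
    change (toK φ).mapMatrix Λ' * (toK φ).mapMatrix m' = (toK φ).mapMatrix m' *
      (toK φ).mapMatrix Λ'
    rw [← map_mul, ← map_mul, e4]

end Pool.Agent.Lib.MP_d55432_al.GS
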