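import Pool.Agent.Lib.MP_d55432_al.Connect
import Pool.Agent.Lib.MP_d55432_al.GS.H87.Lead2
import Pool.Agent.Lib.MP_d55432_al.GS.H87.Jordan
import Pool.Agent.Lib.MP_d55432_al.GS.H87.Spread

/-!
# The generic value of an equivariant polynomial map is semisimple
-/

set_option linter.unusedSectionVars false

namespace Pool.Agent.Lib.MP_d55432_al.GS

open LieAlgebra LieModule Module Set

section Poly

variable {K : Type*} [Field K] [CharZero K] {L : Type*} [LieRing L] [LieAlgebra K L]
  {σ : Type*} {n : ℕ}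

/-- The coordinates of a tuple. -/
noncomputable def kap (e : Basis (Fin n) K L) (a : σ → L) : σ × Fin n → K :=
  fun ik => e.repr (a ik.1) ik.2

theorem kap_surj (e : Basis (Fin n) K L) (pt : σ × Fin n → K) : ∃ a, kap e a = pt := by
  refine ⟨fun i => e.equivFun.symm fun k => pt (i, k), ?_⟩
  funext ik
  change e.equivFun (e.equivFun.symm fun k => pt (ik.1, k)) ik.2 = _
  rw [LinearEquiv.apply_symm_apply]

theorem eval_kap_mem (e : Basis (Fin n) K L) (P : MvPolynomial (σ × Fin n) K) :
    (fun a : σ → L => MvPolynomial.eval (kap e a) P) ∈ PolyFun K L σ := by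
  induction P using MvPolynomial.induction_on with
  | C c =>
    simp only [MvPolynomial.eval_C]
    exact (PolyFun K L σ).algebraMap_mem c
  | add p q hp hq =>
    simp only [map_add]
    exact (PolyFun K L σ).add_mem hp hq
  | mul_X p ik hp =>
    simp only [map_mul, MvPolynomial.eval_X]
    exact (PolyFun K L σ).mul_mem hp (PolyFun_coord ik.1 (e.coord ik.2))

theorem exists_ne_of_ne (e : Basis (Fin n) K L) {P : MvPolynomial (σ × Fin n) K} (hP : P ≠ 0) :
    ∃ a : σ → L, MvPolynomial.eval (kap e a) P ≠ 0 := by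
  by_contra hcon
  push Not at hcon
  apply hP
  apply MvPolynomial.funext
  intro pt
  obtain ⟨a, rfl⟩ := kap_surj e pt
  rw [hcon a, map_zero]

theorem mul_ne [FiniteDimensional K L] {f g : (σ → L) → K} (hf : f ∈ PolyFun K L σ)
    (hg : g ∈ PolyFun K L σ) (hf0 : ∃ a, f a ≠ 0) (hg0 : ∃ a, g a ≠ 0) :
    ∃ a, f a * g a ≠ 0 := by
  let e := Module.finBasis K L
  obtain ⟨P, hP⟩ := exists_mvPolynomial e f hf
  obtain ⟨Q, hQ⟩ := exists_mvPolynomial e g hg
  have hP0 : P ≠ 0 := by
    rintro rfl
    obtain ⟨a, ha⟩ := hf0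
    exact ha (by rw [hP, map_zero])
  have hQ0 : Q ≠ 0 := by
    rintro rfl
    obtain ⟨a, ha⟩ := hg0
    exact ha (by rw [hQ, map_zero])
  obtain ⟨a, ha⟩ := exists_ne_of_ne e (mul_ne_zero hP0 hQ0)
  refine ⟨a, ?_⟩
  rw [map_mul] at ha
  rw [hP, hQ]
  exact ha

/-- An invariant multiple of a polynomial function. -/
theorem exists_invariant [FiniteDimensional K L] {T : List (L ≃ₗ⁅K⁆ L)}
    (hinv : ∀ t ∈ T, ∀ x, t (t x) = x) (hcomm : ∀ t ∈ T, ∀ s ∈ T, ∀ x, t (s x) = s (t x))
    {c : (σ → L) → K} (hc : c ∈ PolyFun K L σ) (hc0 : ∃ a, c a ≠ 0) (l : List (L ≃ₗ⁅K⁆ L))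
    (hl : ∀ t ∈ l, t ∈ T) :
    ∃ d ∈ PolyFun K L σ, (∃ a, c a * d a ≠ 0) ∧
      ∀ t ∈ l, ∀ a, c (fun i => t (a i)) * d (fun i => t (a i)) = c a * d a := by
  induction l with
  | nil =>
    obtain ⟨a, ha⟩ := hc0
    exact ⟨1, Subalgebra.one_mem _, ⟨a, by simpa using ha⟩, by simp⟩
  | cons t l ih =>
    obtain ⟨d, hd, hd0, hdl⟩ := ih fun s hs => hl s (List.mem_cons_of_mem _ hs)
    have ht : t ∈ T := hl t List.mem_cons_self
    have hcd : (fun a => c a * d a) ∈ PolyFun K L σ := Subalgebra.mul_mem _ hc hd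
    have hcdt : (fun a : σ → L => c (fun i => t (a i)) * d (fun i => t (a i))) ∈ PolyFun K L σ :=
      PolyFun_comp (PolyFun K L σ) (fun a => c a * d a) hcd (fun i (a : σ → L) => t (a i))
        fun i ψ => PolyFun_coord i (ψ ∘ₗ (t : L →ₗ⁅K⁆ L).toLinearMap)
    refine ⟨fun a => d a * (c (fun i => t (a i)) * d (fun i => t (a i))),
      Subalgebra.mul_mem _ hd hcdt, ?_, ?_⟩
    · have h1 : ∃ a : σ → L, c (fun i => t (a i)) * d (fun i => t (a i)) ≠ 0 := by
        obtain ⟨a, ha⟩ := hd0
        refine ⟨fun i => t (a i), ?_⟩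
        simp only [hinv t ht]
        exact ha
      obtain ⟨a, ha⟩ := mul_ne hcd hcdt hd0 h1
      exact ⟨a, by rwa [← mul_assoc]⟩
    · intro s hs a
      rcases List.mem_cons.1 hs with rfl | hs
      · simp only [hinv s ht]
        ring
      · have h1 := hdl s hs a
        have h2 := hdl s hs fun i => t (a i)
        have h3 : (fun i => s (t (a i))) = fun i => t (s (a i)) := by
          funext i
          exact hcomm s (hl s (List.mem_cons_of_mem _ hs)) t ht _
        rw [h3] at h2
        change c (fun i => s (a i)) * (d (fun i => s (a i)) * (c (fun i => t (s (a i))) *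
          d (fun i => t (s (a i))))) = c a * (d a * (c (fun i => t (a i)) * d fun i => t (a i)))
        rw [← mul_assoc, h1, h2, mul_assoc]

end Poly

variable {K : Type*} [Field K] [IsAlgClosed K] [CharZero K] {L : Type*} [LieRing L]
  [LieAlgebra K L] [FiniteDimensional K L]

/-- The nilpotent part is generically a polynomial map up to a scalar. -/
theorem exists_nilpotent_part [LieAlgebra.IsKilling K L] {σ : Type*} {f : (σ → L) → L}
    (hf : IsPolyMap K f) : ∃ c ∈ PolyFun K L σ, (∃ a, c a ≠ 0) ∧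
      ∃ q : (σ → L) → L, IsPolyMap K q ∧
        ∀ a, c a ≠ 0 → ∃ y, JN K (f a) y ∧ q a = c a • y := by
  classical
  let e := Module.finBasis K L
  have h1 : ∀ i j, ∃ P : MvPolynomial (σ × Fin (finrank K L)) K, ∀ a,
      e.repr ⁅f a, e j⁆ i = MvPolynomial.eval (kap e a) P := by
    intro i j
    let ψ : Dual K L := (e.coord i) ∘ₗ ((LieModule.toEnd K L L : L →ₗ[K] Module.End K L).flip (e j))
    obtain ⟨P, hP⟩ := exists_mvPolynomial e (fun a => ψ (f a)) (hf ψ)
    exact ⟨P, fun a => hP a⟩
  choose Λ hΛ using h1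
  obtain ⟨c, S, hc0, hS⟩ := generic_jordan (Matrix.of Λ)
  have hΛ' : ∀ a, LinearMap.toMatrix e e (ad K L (f a)) =
      (Matrix.of Λ).map (MvPolynomial.eval (kap e a)) := by
    intro a
    ext i j
    rw [LinearMap.toMatrix_apply, Matrix.map_apply, Matrix.of_apply, ← hΛ, ad_apply]
  -- left inverse of ad
  obtain ⟨r, hr⟩ : ∃ r : Module.End K L →ₗ[K] L, ∀ y, r (ad K L y) = y := by
    have h2 : LinearMap.ker (ad K L : L →ₗ[K] Module.End K L) = ⊥ := by
      rw [LinearMap.ker_eq_bot']
      intro x hx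
      exact ad_inj hx
    obtain ⟨r, hr⟩ := LinearMap.exists_leftInverse_of_injective _ h2
    exact ⟨r, fun y => LinearMap.congr_fun hr y⟩
  let cf : (σ → L) → K := fun a => MvPolynomial.eval (kap e a) c
  let A : (σ → L) → Matrix (Fin (finrank K L)) (Fin (finrank K L)) K := fun a =>
    Matrix.of fun i j => MvPolynomial.eval (kap e a) (c * Λ i j - S i j)
  refine ⟨cf, eval_kap_mem e c, exists_ne_of_ne e hc0, fun a => r (Matrix.toLin e e (A a)), ?_, ?_⟩
  · intro ψ
    have h3 : (fun a => ψ (r (Matrix.toLin e e (A a)))) =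
        ∑ i, ∑ j, (ψ (r (Matrix.toLin e e (Matrix.single i j 1)))) •
          (fun a : σ → L => MvPolynomial.eval (kap e a) (c * Λ i j - S i j)) := by
      funext a
      have h4 : A a = ∑ i, ∑ j, (MvPolynomial.eval (kap e a) (c * Λ i j - S i j)) •
          Matrix.single i j (1 : K) := by
        conv_lhs => rw [Matrix.matrix_eq_sum_single (A a)]
        refine Finset.sum_congr rfl fun i _ => Finset.sum_congr rfl fun j _ => ?_
        rw [Matrix.smul_single, smul_eq_mul, mul_one]
        rfl
      rw [h4]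
      simp only [map_sum, map_smul, Finset.sum_apply, Pi.smul_apply, smul_eq_mul]
      exact Finset.sum_congr rfl fun i _ => Finset.sum_congr rfl fun j _ => mul_comm _ _
    rw [h3]
    exact Subalgebra.sum_mem _ fun i _ => Subalgebra.sum_mem _ fun j _ =>
      Subalgebra.smul_mem _ (eval_kap_mem e _) _
  · intro a ha
    obtain ⟨S₀, h2, h3, h4, h5⟩ := hS (kap e a) ha
    rw [← hΛ'] at h4 h5
    have hto : ∀ B : Matrix (Fin (finrank K L)) (Fin (finrank K L)) K,
        Matrix.toLinAlgEquiv e B = Matrix.toLin e e B := fun B => rfl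
    have had : Matrix.toLin e e (LinearMap.toMatrix e e (ad K L (f a))) = ad K L (f a) :=
      Matrix.toLin_toMatrix _ _ _
    have hNil : IsNilpotent (ad K L (f a) - Matrix.toLin e e S₀) := by
      have h6 := h4.map (Matrix.toLinAlgEquiv e)
      rw [map_sub, hto, hto, had] at h6
      exact h6
    have hCom : Commute (ad K L (f a)) (Matrix.toLin e e S₀) := by
      have h6 := h5.map (Matrix.toLinAlgEquiv e)
      rw [hto, hto, had] at h6
      exact h6
    have hSS : Module.End.IsSemisimple (Matrix.toLin e e S₀ : Module.End K L) := by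
      refine (LinearEquiv.isSemisimple_iff (Matrix.toLin' S₀ : Module.End K _)
        (Matrix.toLin e e S₀ : Module.End K L) e.equivFun.symm ?_).1 h3
      apply LinearMap.ext
      intro v
      change e.equivFun.symm (Matrix.toLin' S₀ v) = Matrix.toLin e e S₀ (e.equivFun.symm v)
      rw [Matrix.toLin_apply, Matrix.toLin'_apply, Basis.equivFun_symm_apply]
      have h7 : (e.repr (e.equivFun.symm v) : Fin (finrank K L) → K) = v := by
        change e.equivFun (e.equivFun.symm v) = v
        rw [LinearEquiv.apply_symm_apply]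
      rw [h7]
    obtain ⟨y, hy, hNy⟩ := exists_ad (f a) (S := Matrix.toLin e e S₀)
      (N := ad K L (f a) - Matrix.toLin e e S₀) (by rw [sub_add_cancel])
      ((hCom.sub_left (Commute.refl _))) hNil hSS
    refine ⟨y, hy, ?_⟩
    have h8 : A a = cf a • (LinearMap.toMatrix e e (ad K L (f a)) - S₀) := by
      ext i j
      have h9 := congrFun (congrFun (hΛ' a) i) j
      rw [Matrix.smul_apply, Matrix.sub_apply, h9, Matrix.map_apply, Matrix.of_apply,
        smul_eq_mul, mul_sub]
      change MvPolynomial.eval (kap e a) (c * Λ i j - S i j) = _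
      rw [map_sub, map_mul, ← h2 i j]
    change r (Matrix.toLin e e (A a)) = cf a • y
    rw [h8, map_smul, map_sub, had, hNy, map_smul, hr]

/-- (A) for a list of commuting involutions without common fixed vector. -/
theorem generic_semisimple_aux [LieAlgebra.IsKilling K L] {T : List (L ≃ₗ⁅K⁆ L)} (hT : IsInvol T)
    {σ : Type*} {f : (σ → L) → L} (hf : IsPolyMap K f)
    (heq : ∀ t ∈ T, ∀ a, f (fun i => t (a i)) = t (f a)) :
    ∃ δ ∈ PolyFun K L σ, (∃ a, δ a ≠ 0) ∧
      ∀ a, δ a ≠ 0 → (LieAlgebra.ad K L (f a)).IsSemisimple := by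
  classical
  obtain ⟨c, hc, hc0, q, hq, hcq⟩ := exists_nilpotent_part hf
  obtain ⟨d, hd, hd0, hdT⟩ := exists_invariant hT.invol hT.comm hc hc0 T fun t ht => ht
  have hcd : (fun a => c a * d a) ∈ PolyFun K L σ := Subalgebra.mul_mem _ hc hd
  let h : (σ → L) → L := fun a => (c a * d a * d a) • q a
  have hval : ∀ a y, JN K (f a) y → h a = (c a * d a) ^ 2 • y := by
    intro a y hy
    by_cases hca : c a = 0
    · change (c a * d a * d a) • q a = _
      rw [hca, zero_mul, zero_mul, zero_smul, zero_pow two_ne_zero, zero_smul]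
    · obtain ⟨z, hz, hqz⟩ := hcq a hca
      change (c a * d a * d a) • q a = _
      rw [hqz, hz.unique hy, smul_smul]
      congr 1
      ring
  have hval0 : ∀ a, c a * d a = 0 → h a = 0 := by
    intro a ha
    change (c a * d a * d a) • q a = _
    rw [ha, zero_mul, zero_smul]
  have hcase : ∀ a, c a * d a = 0 ∨ ∃ y, JN K (f a) y := by
    intro a
    by_cases hca : c a = 0
    · left
      rw [hca, zero_mul]
    · right
      obtain ⟨z, hz, -⟩ := hcq a hca
      exact ⟨z, hz⟩
  have hG : Good T h := by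
    refine ⟨?_, ?_, ?_⟩
    · intro ψ
      have h1 : (fun a => ψ (h a)) = (fun a => (c a * d a) * d a) * fun a => ψ (q a) := by
        funext a
        change ψ ((c a * d a * d a) • q a) = _
        rw [map_smul, smul_eq_mul]
        rfl
      rw [h1]
      exact Subalgebra.mul_mem _ (Subalgebra.mul_mem _ hcd hd) (hq ψ)
    · intro t ht a
      rcases hcase a with h1 | ⟨y, hy⟩
      · have h2 := hdT t ht a
        rw [hval0 a h1, hval0 _ (by rw [h2, h1]), map_zero]
      · have h2 := hy.map t
        rw [← heq t ht a] at h2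
        rw [hval _ _ h2, hval a y hy, hdT t ht a, map_smul]
    · intro a
      rcases hcase a with h1 | ⟨y, hy⟩
      · rw [hval0 a h1, map_zero]
        exact IsNilpotent.zero
      · rw [hval a y hy, map_smul]
        exact hy.nil.smul _
  refine ⟨fun a => c a * d a, hcd, hd0, fun a ha => ?_⟩
  change c a * d a ≠ 0 at ha
  have hca : c a ≠ 0 := fun h0 => ha (by rw [h0, zero_mul])
  obtain ⟨y, hy, -⟩ := hcq a hca
  have h1 := eq_zero_of_good hT hG a
  rw [hval a y hy] at h1
  have h2 : y = 0 := (smul_eq_zero.1 h1).resolve_left (pow_ne_zero 2 ha)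
  have h3 := hy.ss
  rwa [h2, sub_zero] at h3

/-- **Theorem (A).** The generic value of a polynomial map `L ^ m → L` on a simple Lie algebra
which commutes with all automorphisms is semisimple. -/
theorem generic_semisimple [LieAlgebra.IsSimple K L] {σ : Type*} (f : (σ → L) → L)
    (hf : IsPolyMap K f) (heq : IsAutEquivariant K f) :
    ∃ δ ∈ PolyFun K L σ, (∃ a, δ a ≠ 0) ∧
      ∀ a, δ a ≠ 0 → (LieAlgebra.ad K L (f a)).IsSemisimple := by
  obtain ⟨T, h1, h2, h3⟩ := exists_involutions K L
  exact generic_semisimple_aux ⟨h1, h2, h3⟩ hf fun t _ a => heq t a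

/-- A polynomial function which vanishes at the semisimple values of an equivariant polynomial map
vanishes at all its values. -/
theorem closure_semisimple [LieAlgebra.IsSimple K L] {σ : Type*} (f : (σ → L) → L)
    (hf : IsPolyMap K f) (heq : IsAutEquivariant K f) :
    ∀ g ∈ PolyOn K L, (∀ a, (LieAlgebra.ad K L (f a)).IsSemisimple → g (f a) = 0) →
      ∀ a, g (f a) = 0 := by
  intro g hg h a
  obtain ⟨δ, hδ, hδ0, hδs⟩ := generic_semisimple f hf heq
  by_contra hne
  have hgf : (fun a => g (f a)) ∈ PolyFun K L σ := polyOn_comp K (PolyFun K L σ) f hf hg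
  obtain ⟨b, hb⟩ := mul_ne hgf hδ ⟨a, hne⟩ hδ0
  have hb1 : δ b ≠ 0 := fun h0 => hb (by rw [h0, mul_zero])
  exact hb (by rw [h b (hδs b hb1), zero_mul])

end Pool.Agent.Lib.MP_d55432_al.GS
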