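import Mathlib

/-!
# Automorphisms from bases with the same Cartan matrix

This follows `Mathlib.Algebra.Lie.Basis.Prod`; the equivalence there does not come with its
values on the generators, so the argument is repeated here.
-/

set_option linter.unusedSectionVars false

namespace Pool.Agent.Lib.MP_d55432_al.GS

open LieAlgebra LieModule Module Function Set

variable {K L ι : Type*} [Finite ι] [Field K] [CharZero K] [LieRing L] [LieAlgebra K L]
  [FiniteDimensional K L] {H₁ H₂ : LieSubalgebra K L}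

/-- The subalgebra of the product generated by the pairs of generators. -/
def pairAlg (b₁ : LieAlgebra.Basis ι H₁) (b₂ : LieAlgebra.Basis ι H₂) :
    LieSubalgebra K (L × L) :=
  .lieSpan _ _ <| (range fun i => (b₁.e i, b₂.e i)) ∪ range fun i => (b₁.f i, b₂.f i)

variable (b₁ : LieAlgebra.Basis ι H₁) (b₂ : LieAlgebra.Basis ι H₂)

theorem e_mem (i : ι) : (b₁.e i, b₂.e i) ∈ pairAlg b₁ b₂ :=
  LieSubalgebra.subset_lieSpan (Or.inl ⟨i, rfl⟩)

theorem f_mem (i : ι) : (b₁.f i, b₂.f i) ∈ pairAlg b₁ b₂ :=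
  LieSubalgebra.subset_lieSpan (Or.inr ⟨i, rfl⟩)

theorem h_mem (i : ι) : (b₁.h i, b₂.h i) ∈ pairAlg b₁ b₂ := by
  have h1 := (pairAlg b₁ b₂).lie_mem (e_mem b₁ b₂ i) (f_mem b₁ b₂ i)
  have h2 : ⁅((b₁.e i, b₂.e i) : L × L), (b₁.f i, b₂.f i)⁆ = (b₁.h i, b₂.h i) := by
    rw [← (b₁.sl2 i).lie_e_f, ← (b₂.sl2 i).lie_e_f]
    rfl
  rwa [h2] at h1

/-- The Cartan subalgebra of `pairAlg`. -/
def pairCartan : LieSubalgebra K (pairAlg b₁ b₂) :=
  .lieSpan _ _ (range fun i => ⟨(b₁.h i, b₂.h i), h_mem b₁ b₂ i⟩)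

theorem coe_mem_span {y : pairAlg b₁ b₂} (hy : y ∈ pairCartan b₁ b₂) :
    (y : L × L) ∈ Submodule.span K (range fun i => (b₁.h i, b₂.h i)) := by
  induction hy using LieSubalgebra.lieSpan_induction with
  | mem u hu =>
    obtain ⟨i, rfl⟩ := hu
    exact Submodule.subset_span ⟨i, rfl⟩
  | zero => exact Submodule.zero_mem _
  | add u v _ _ hu hv => exact Submodule.add_mem _ hu hv
  | smul t u _ hu => exact Submodule.smul_mem _ t hu
  | lie u v _ _ hu hv =>
    have key : ∀ u ∈ Submodule.span K (range fun i => ((b₁.h i, b₂.h i) : L × L)),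
        ∀ v ∈ Submodule.span K (range fun i => ((b₁.h i, b₂.h i) : L × L)), ⁅u, v⁆ = 0 := by
      intro u hu v hv
      induction hu using Submodule.span_induction with
      | mem u hu =>
        obtain ⟨i, rfl⟩ := hu
        induction hv using Submodule.span_induction with
        | mem v hv =>
          obtain ⟨j, rfl⟩ := hv
          exact Prod.ext (b₁.lie_h_h i j) (b₂.lie_h_h i j)
        | zero => rw [lie_zero]
        | add v w _ _ hv hw => rw [lie_add, hv, hw, add_zero]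
        | smul t v _ hv => rw [lie_smul, hv, smul_zero]
      | zero => rw [zero_lie]
      | add u w _ _ hu hw => rw [add_lie, hu, hw, add_zero]
      | smul t u _ hu => rw [smul_lie, hu, smul_zero]
    change ⁅(u : L × L), (v : L × L)⁆ ∈ _
    rw [key _ hu _ hv]
    exact Submodule.zero_mem _

theorem pair_span_top : LieSubalgebra.lieSpan K (pairAlg b₁ b₂)
    ((range fun i => ⟨(b₁.e i, b₂.e i), e_mem b₁ b₂ i⟩) ∪
      range fun i => ⟨(b₁.f i, b₂.f i), f_mem b₁ b₂ i⟩) = ⊤ := by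
  have h1 : ((range fun i => (⟨(b₁.e i, b₂.e i), e_mem b₁ b₂ i⟩ : pairAlg b₁ b₂)) ∪
      range fun i => (⟨(b₁.f i, b₂.f i), f_mem b₁ b₂ i⟩ : pairAlg b₁ b₂)) =
      Subtype.val ⁻¹' ((range fun i => ((b₁.e i, b₂.e i) : L × L)) ∪
        range fun i => (b₁.f i, b₂.f i)) := by
    ext x
    simp [Subtype.ext_iff]
  rw [h1]
  exact LieSubalgebra.lieSpan_lieSpan_coe_preimage

/-- A basis of `pairAlg`. -/
noncomputable def pairBasis (hA : b₁.A = b₂.A) :
    LieAlgebra.Basis ι (pairCartan b₁ b₂) where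
  A := b₁.A
  h := fun i => ⟨(b₁.h i, b₂.h i), h_mem b₁ b₂ i⟩
  e := fun i => ⟨(b₁.e i, b₂.e i), e_mem b₁ b₂ i⟩
  f := fun i => ⟨(b₁.f i, b₂.f i), f_mem b₁ b₂ i⟩
  cartan_eq_lieSpan := rfl
  span_ef := pair_span_top b₁ b₂
  linInd := .of_comp (pairAlg b₁ b₂).subtype <| .of_comp (LinearMap.fst K L L) b₁.linInd
  nondegen := b₁.nondegen
  sl2 i :=
    { h_ne_zero := by simp [Subtype.ext_iff, (b₁.sl2 i).h_ne_zero]
      lie_e_f := by simp [Subtype.ext_iff, (b₁.sl2 i).lie_e_f, (b₂.sl2 i).lie_e_f]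
      lie_h_e_nsmul := by
        simp [Subtype.ext_iff, (b₁.sl2 i).lie_h_e_nsmul, (b₂.sl2 i).lie_h_e_nsmul]
      lie_h_f_nsmul := by
        simp [Subtype.ext_iff, (b₁.sl2 i).lie_h_f_nsmul, (b₂.sl2 i).lie_h_f_nsmul] }
  lie_h_h i j := by simp [Subtype.ext_iff, b₁.lie_h_h, b₂.lie_h_h]
  lie_h_e i j := by simp [Subtype.ext_iff, b₁.lie_h_e, b₂.lie_h_e, ← hA]
  lie_h_f i j := by simp [Subtype.ext_iff, b₁.lie_h_f, b₂.lie_h_f, ← hA]
  lie_e_f_ne i j hij := by
    simp [Subtype.ext_iff, b₁.lie_e_f_ne i j hij, b₂.lie_e_f_ne _ _ hij]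

theorem fst_surj : Surjective (fun x : pairAlg b₁ b₂ => (x : L × L).1) := by
  intro y
  have hy : y ∈ LieSubalgebra.lieSpan K L (range b₁.e ∪ range b₁.f) := by
    rw [b₁.span_ef]
    exact LieSubalgebra.mem_top _
  induction hy using LieSubalgebra.lieSpan_induction with
  | mem u hu =>
    rcases hu with ⟨i, rfl⟩ | ⟨i, rfl⟩
    · exact ⟨⟨_, e_mem b₁ b₂ i⟩, rfl⟩
    · exact ⟨⟨_, f_mem b₁ b₂ i⟩, rfl⟩
  | zero => exact ⟨0, rfl⟩
  | add u v _ _ hu hv =>
    obtain ⟨x, rfl⟩ := hu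
    obtain ⟨z, rfl⟩ := hv
    exact ⟨x + z, rfl⟩
  | smul t u _ hu =>
    obtain ⟨x, rfl⟩ := hu
    exact ⟨t • x, rfl⟩
  | lie u v _ _ hu hv =>
    obtain ⟨x, rfl⟩ := hu
    obtain ⟨z, rfl⟩ := hv
    exact ⟨⁅x, z⁆, rfl⟩

theorem swap_mem {x : L × L} (hx : x ∈ pairAlg b₁ b₂) : (x.2, x.1) ∈ pairAlg b₂ b₁ := by
  induction hx using LieSubalgebra.lieSpan_induction with
  | mem u hu =>
    rcases hu with ⟨i, rfl⟩ | ⟨i, rfl⟩
    · exact e_mem b₂ b₁ i
    · exact f_mem b₂ b₁ i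
  | zero => exact LieSubalgebra.zero_mem _
  | add u v _ _ hu hv => exact LieSubalgebra.add_mem _ hu hv
  | smul t u _ hu => exact LieSubalgebra.smul_mem _ t hu
  | lie u v _ _ hu hv => exact LieSubalgebra.lie_mem _ hu hv

theorem snd_surj : Surjective (fun x : pairAlg b₁ b₂ => (x : L × L).2) := by
  intro y
  obtain ⟨x, rfl⟩ := fst_surj b₂ b₁ y
  exact ⟨⟨(x.1.2, x.1.1), swap_mem b₂ b₁ x.2⟩, rfl⟩

theorem pairAlg_ne_top [Nontrivial L] (hA : b₁.A = b₂.A) : pairAlg b₁ b₂ ≠ ⊤ := by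
  have := Fintype.ofFinite ι
  have := b₁.isCartanSubalgebra
  have := b₂.isCartanSubalgebra
  have := (pairBasis b₁ b₂ hA).isCartanSubalgebra
  intro contra
  -- some `h` of the second factor is not zero
  have hne : ∃ i : ι, b₂.h i ≠ 0 := by
    by_contra hcon
    push Not at hcon
    have hem : IsEmpty ι := ⟨fun i => (b₂.sl2 i).h_ne_zero (hcon i)⟩
    have h1 := b₂.span_ef
    rw [range_eq_empty, range_eq_empty, union_empty, LieSubalgebra.span_empty] at h1
    obtain ⟨x, hx⟩ := exists_ne (0 : L)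
    apply hx
    have h2 : x ∈ (⊥ : LieSubalgebra K L) := by
      rw [h1]
      exact LieSubalgebra.mem_top _
    simpa using h2
  obtain ⟨i, hi⟩ := hne
  have hmem : (0, b₂.h i) ∈ pairAlg b₁ b₂ := by
    rw [contra]
    exact LieSubalgebra.mem_top _
  have h3 : (⟨(0, b₂.h i), hmem⟩ : pairAlg b₁ b₂) ∈ pairCartan b₁ b₂ := by
    rw [← LieSubalgebra.mem_toLieSubmodule, ← rootSpace_zero_eq, LieModule.mem_genWeightSpace]
    refine fun ⟨y, hy⟩ ↦ ⟨1, ?_⟩
    have h4 := coe_mem_span b₁ b₂ hy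
    have h5 : ∀ z ∈ Submodule.span K (range fun i => ((b₁.h i, b₂.h i) : L × L)),
        ⁅z.2, b₂.h i⁆ = 0 := by
      intro z hz
      induction hz using Submodule.span_induction with
      | mem u hu =>
        obtain ⟨j, rfl⟩ := hu
        exact b₂.lie_h_h j i
      | zero => exact zero_lie _
      | add u w _ _ hu hw => rw [Prod.snd_add, add_lie, hu, hw, add_zero]
      | smul t u _ hu => rw [Prod.smul_snd, smul_lie, hu, smul_zero]
    simpa [Subtype.ext_iff] using h5 _ h4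
  have h6 := coe_mem_span b₁ b₂ h3
  have h7 : ∀ z ∈ Submodule.span K (range fun i => ((b₁.h i, b₂.h i) : L × L)),
      ∃ c : ι → K, z.1 = ∑ i, c i • b₁.h i ∧ z.2 = ∑ i, c i • b₂.h i := by
    classical
    intro z hz
    induction hz using Submodule.span_induction with
    | mem u hu =>
      obtain ⟨j, rfl⟩ := hu
      refine ⟨Pi.single j 1, ?_, ?_⟩
      · simp [Pi.single_apply]
      · simp [Pi.single_apply]
    | zero => exact ⟨0, by simp, by simp⟩
    | add u w _ _ hu hw =>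
      obtain ⟨c, h1, h2⟩ := hu
      obtain ⟨d, h3, h4⟩ := hw
      refine ⟨c + d, ?_, ?_⟩
      · rw [Prod.fst_add, h1, h3, ← Finset.sum_add_distrib]
        exact Finset.sum_congr rfl fun i _ => by rw [Pi.add_apply, add_smul]
      · rw [Prod.snd_add, h2, h4, ← Finset.sum_add_distrib]
        exact Finset.sum_congr rfl fun i _ => by rw [Pi.add_apply, add_smul]
    | smul t u _ hu =>
      obtain ⟨c, h1, h2⟩ := hu
      refine ⟨t • c, ?_, ?_⟩
      · rw [Prod.smul_fst, h1, Finset.smul_sum]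
        exact Finset.sum_congr rfl fun i _ => by rw [Pi.smul_apply, smul_smul, smul_eq_mul]
      · rw [Prod.smul_snd, h2, Finset.smul_sum]
        exact Finset.sum_congr rfl fun i _ => by rw [Pi.smul_apply, smul_smul, smul_eq_mul]
  obtain ⟨c, h8, h9⟩ := h7 _ h6
  have h10 := Fintype.linearIndependent_iff.1 b₁.linInd c h8.symm
  apply hi
  change b₂.h i = _ at h9
  rw [h9]
  exact Finset.sum_eq_zero fun j _ => by rw [h10 j, zero_smul]

theorem fst_inj [LieAlgebra.IsSimple K L] (hA : b₁.A = b₂.A) {x : L × L}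
    (hx : x ∈ pairAlg b₁ b₂) (h0 : x.1 = 0) : x = 0 := by
  let I : LieIdeal K L :=
    { carrier := {y | (0, y) ∈ pairAlg b₁ b₂}
      add_mem' := by
        intro y z hy hz
        have := (pairAlg b₁ b₂).add_mem hy hz
        rwa [Prod.mk_add_mk, add_zero] at this
      zero_mem' := (pairAlg b₁ b₂).zero_mem
      smul_mem' := by
        intro c y hy
        have := (pairAlg b₁ b₂).smul_mem c hy
        rwa [Prod.smul_mk, smul_zero] at this
      lie_mem := by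
        intro z y hy
        obtain ⟨w, rfl⟩ := snd_surj b₁ b₂ z
        have := (pairAlg b₁ b₂).lie_mem w.2 hy
        have h1 : ⁅(w : L × L), ((0, y) : L × L)⁆ = (0, ⁅(w : L × L).2, y⁆) :=
          Prod.ext (lie_zero _) rfl
        rw [h1] at this
        exact this }
  have hI : ∀ y, y ∈ I ↔ (0, y) ∈ pairAlg b₁ b₂ := fun y => Iff.rfl
  have hnt : Nontrivial L := LieAlgebra.IsSimple.nontrivial K L
  rcases LieAlgebra.IsSimple.eq_bot_or_eq_top I with h | h
  · have h1 : x.2 ∈ I := by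
      rw [hI]
      have : x = (0, x.2) := Prod.ext h0 rfl
      rwa [← this]
    rw [h] at h1
    exact Prod.ext h0 (by simpa using h1)
  · exfalso
    apply pairAlg_ne_top b₁ b₂ hA
    rw [eq_top_iff]
    rintro ⟨u, v⟩ -
    obtain ⟨w, hw⟩ := fst_surj b₁ b₂ u
    have h1 : v - (w : L × L).2 ∈ I := by
      rw [h]
      exact LieSubmodule.mem_top _
    have h2 := (pairAlg b₁ b₂).add_mem w.2 ((hI _).1 h1)
    have h3 : (w : L × L) + (0, v - (w : L × L).2) = (u, v) := by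
      refine Prod.ext ?_ ?_
      · rw [Prod.fst_add, add_zero]
        exact hw
      · rw [Prod.snd_add, add_sub_cancel]
    rwa [h3] at h2

/-- Two bases with the same Cartan matrix are related by an automorphism. -/
theorem exists_aut [LieAlgebra.IsSimple K L] (hA : b₁.A = b₂.A) :
    ∃ φ : L ≃ₗ⁅K⁆ L, ∀ i, φ (b₁.e i) = b₂.e i ∧ φ (b₁.f i) = b₂.f i := by
  let p₁ : pairAlg b₁ b₂ →ₗ⁅K⁆ L := (LieHom.fst K L L).comp (pairAlg b₁ b₂).incl
  let p₂ : pairAlg b₁ b₂ →ₗ⁅K⁆ L := (LieHom.snd K L L).comp (pairAlg b₁ b₂).incl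
  have h1 : Injective p₁ := by
    intro x y hxy
    have h2 : p₁ (x - y) = 0 := by rw [map_sub, hxy, sub_self]
    have h3 := fst_inj b₁ b₂ hA (x - y).2 h2
    have h4 : x - y = 0 := Subtype.ext h3
    exact sub_eq_zero.1 h4
  have h2 : Injective p₂ := by
    intro x y hxy
    have h2 : p₂ (x - y) = 0 := by rw [map_sub, hxy, sub_self]
    have h3 := fst_inj b₂ b₁ hA.symm (swap_mem b₁ b₂ (x - y).2) h2
    have h4 : x - y = 0 := by
      apply Subtype.ext
      exact Prod.ext (congrArg Prod.snd h3) (congrArg Prod.fst h3)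
    exact sub_eq_zero.1 h4
  let e₁ : pairAlg b₁ b₂ ≃ₗ⁅K⁆ L := .ofBijective p₁ ⟨h1, fst_surj b₁ b₂⟩
  let e₂ : pairAlg b₁ b₂ ≃ₗ⁅K⁆ L := .ofBijective p₂ ⟨h2, snd_surj b₁ b₂⟩
  have he₁ : ∀ x, e₁ x = (x : L × L).1 := fun x => rfl
  have he₂ : ∀ x, e₂ x = (x : L × L).2 := fun x => rfl
  refine ⟨e₁.symm.trans e₂, fun i => ⟨?_, ?_⟩⟩
  · have h3 : e₁.symm (b₁.e i) = ⟨_, e_mem b₁ b₂ i⟩ := by
      apply e₁.injective
      change e₁ (e₁.symm (b₁.e i)) = e₁ ⟨(b₁.e i, b₂.e i), e_mem b₁ b₂ i⟩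
      rw [he₁ ⟨(b₁.e i, b₂.e i), e_mem b₁ b₂ i⟩, LieEquiv.apply_symm_apply]
    rw [LieEquiv.trans_apply, h3, he₂]
  · have h3 : e₁.symm (b₁.f i) = ⟨_, f_mem b₁ b₂ i⟩ := by
      apply e₁.injective
      change e₁ (e₁.symm (b₁.f i)) = e₁ ⟨(b₁.f i, b₂.f i), f_mem b₁ b₂ i⟩
      rw [he₁ ⟨(b₁.f i, b₂.f i), f_mem b₁ b₂ i⟩, LieEquiv.apply_symm_apply]
    rw [LieEquiv.trans_apply, h3, he₂]

end Pool.Agent.Lib.MP_d55432_al.GS
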