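import Pool.Agent.Lib.MP_d55432_al.GS.H87.LBasis2
import Pool.Agent.Lib.MP_d55432_al.GS.H87.LIso

/-!
# A finite set of commuting involutions without common fixed vector
-/

set_option linter.unusedSectionVars false

namespace Pool.Agent.Lib.MP_d55432_al.GS

open LieAlgebra LieModule Module LieAlgebra.IsKilling Set

section NoDouble

variable {K L : Type*} [Field K] [CharZero K] [LieRing L] [LieAlgebra K L]
  [IsKilling K L] [FiniteDimensional K L]
  {H : LieSubalgebra K L} [H.IsCartanSubalgebra] [IsTriangularizable K H L]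

/-- The root lattice. -/
abbrev rootLat (H : LieSubalgebra K L) [H.IsCartanSubalgebra] [IsTriangularizable K H L] :
    Submodule ℤ (Dual K H) :=
  Submodule.span ℤ (range (rootSystem H).root)

theorem reflection_mem (j : H.root) {β : Dual K H} (hβ : β ∈ rootLat H) :
    (rootSystem H).reflection j β ∈ rootLat H := by
  induction hβ using Submodule.span_induction with
  | mem x hx =>
    obtain ⟨i, rfl⟩ := hx
    rw [← RootPairing.root_reflectionPerm]
    exact Submodule.subset_span ⟨_, rfl⟩
  | zero => rw [map_zero]; exact Submodule.zero_mem _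
  | add x y _ _ hx hy => rw [map_add]; exact Submodule.add_mem _ hx hy
  | smul c x _ hx => rw [map_zsmul]; exact Submodule.smul_mem _ c hx

/-- No root is divisible by two in the root lattice. -/
theorem no_double (i : H.root) : ∀ β ∈ rootLat H, (rootSystem H).root i ≠ (2 : ℤ) • β := by
  obtain ⟨B⟩ := (rootSystem H).nonempty_base
  have hrefl : ∀ j i : H.root, (∀ β ∈ rootLat H, (rootSystem H).root i ≠ (2 : ℤ) • β) →
      ∀ β ∈ rootLat H, (rootSystem H).root ((rootSystem H).reflectionPerm j i) ≠ (2 : ℤ) • β := by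
    intro j i hi β hβ h
    apply hi _ (reflection_mem j hβ)
    rw [← map_zsmul, ← h, RootPairing.root_reflectionPerm]
    exact ((rootSystem H).reflection_same j ((rootSystem H).root i)).symm
  refine B.induction_reflect i (p := fun i => ∀ β ∈ rootLat H,
    (rootSystem H).root i ≠ (2 : ℤ) • β) (fun i hi => hrefl i i hi) ?_
    (fun i j hi _ => hrefl j i hi)
  intro i hi β hβ h
  classical
  let c : Dual K (Dual K H) := B.toWeightBasis.coord ⟨i, hi⟩
  have hc : ∀ γ ∈ rootLat H, ∃ z : ℤ, c γ = z := by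
    intro γ hγ
    rw [rootLat, ← B.span_int_root_support] at hγ
    induction hγ using Submodule.span_induction with
    | mem x hx =>
      obtain ⟨j, hj, rfl⟩ := hx
      refine ⟨if (⟨j, hj⟩ : B.support) = ⟨i, hi⟩ then 1 else 0, ?_⟩
      have h1 : (rootSystem H).root j = B.toWeightBasis ⟨j, hj⟩ := by
        rw [B.toWeightBasis_apply]
      rw [h1, Basis.coord_apply, Basis.repr_self, Finsupp.single_apply]
      split_ifs <;> simp
    | zero => exact ⟨0, by simp⟩
    | add x y _ _ hx hy =>
      obtain ⟨z, hz⟩ := hx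
      obtain ⟨w, hw⟩ := hy
      exact ⟨z + w, by rw [map_add, hz, hw]; push_cast; rfl⟩
    | smul t x _ hx =>
      obtain ⟨z, hz⟩ := hx
      exact ⟨t * z, by rw [map_zsmul, hz]; simp⟩
  obtain ⟨z, hz⟩ := hc β hβ
  have h1 : c ((rootSystem H).root i) = 1 := by
    have h1 : (rootSystem H).root i = B.toWeightBasis ⟨i, hi⟩ := by
      rw [B.toWeightBasis_apply]
    rw [h1, Basis.coord_apply, Basis.repr_self, Finsupp.single_apply, if_pos rfl]
  rw [h, map_zsmul, hz] at h1
  have h2 : ((2 * z : ℤ) : K) = ((1 : ℤ) : K) := by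
    push_cast
    rw [← h1]
    simp
  have h3 := Int.cast_injective (α := K) h2
  omega

end NoDouble

section Gen

variable {K L ι : Type*} [Fintype ι] [Field K] [CharZero K] [LieRing L] [LieAlgebra K L]
  [FiniteDimensional K L] {H : LieSubalgebra K L} (b : LieAlgebra.Basis ι H)

theorem eq_of_gens (φ ψ : L →ₗ⁅K⁆ L) (he : ∀ i, φ (b.e i) = ψ (b.e i))
    (hf : ∀ i, φ (b.f i) = ψ (b.f i)) (x : L) : φ x = ψ x := by
  have hx : x ∈ LieSubalgebra.lieSpan K L (range b.e ∪ range b.f) := by
    rw [b.span_ef]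
    exact LieSubalgebra.mem_top _
  induction hx using LieSubalgebra.lieSpan_induction with
  | mem u hu =>
    rcases hu with ⟨i, rfl⟩ | ⟨i, rfl⟩
    · exact he i
    · exact hf i
  | zero => rw [map_zero, map_zero]
  | add u v _ _ hu hv => rw [map_add, map_add, hu, hv]
  | smul t u _ hu => rw [map_smul, map_smul, hu]
  | lie u v _ _ hu hv => rw [LieHom.map_lie, LieHom.map_lie, hu, hv]

/-- Signs. -/
def sg (K : Type*) [Field K] {ι : Type*} [DecidableEq ι] (j i : ι) : K := if i = j then -1 else 1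

theorem sg_mul_self [DecidableEq ι] (j i : ι) : sg K j i * sg K j i = 1 := by
  unfold sg
  split_ifs <;> norm_num

/-- The basis with one pair of generators negated. -/
noncomputable def flipB [DecidableEq ι] (j : ι) : LieAlgebra.Basis ι H where
  A := b.A
  h := b.h
  e := fun i => sg K j i • b.e i
  f := fun i => sg K j i • b.f i
  cartan_eq_lieSpan := b.cartan_eq_lieSpan
  span_ef := by
    rw [eq_top_iff, ← b.span_ef, LieSubalgebra.lieSpan_le]
    rintro x (⟨i, rfl⟩ | ⟨i, rfl⟩)
    · have h1 : b.e i = sg K j i • (sg K j i • b.e i) := by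
        rw [smul_smul, sg_mul_self, one_smul]
      rw [h1]
      exact LieSubalgebra.smul_mem _ _ (LieSubalgebra.subset_lieSpan (Or.inl ⟨i, rfl⟩))
    · have h1 : b.f i = sg K j i • (sg K j i • b.f i) := by
        rw [smul_smul, sg_mul_self, one_smul]
      rw [h1]
      exact LieSubalgebra.smul_mem _ _ (LieSubalgebra.subset_lieSpan (Or.inr ⟨i, rfl⟩))
  linInd := b.linInd
  nondegen := b.nondegen
  sl2 i :=
    { h_ne_zero := (b.sl2 i).h_ne_zero
      lie_e_f := by rw [smul_lie, lie_smul, smul_smul, sg_mul_self, one_smul, (b.sl2 i).lie_e_f]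
      lie_h_e_nsmul := by rw [lie_smul, (b.sl2 i).lie_h_e_nsmul, smul_comm]
      lie_h_f_nsmul := by rw [lie_smul, (b.sl2 i).lie_h_f_nsmul, smul_neg, smul_comm] }
  lie_h_h := b.lie_h_h
  lie_h_e i j := by rw [lie_smul, b.lie_h_e, smul_comm]
  lie_h_f i j := by rw [lie_smul, b.lie_h_f, smul_comm]
  lie_e_f_ne i j hij := by rw [smul_lie, lie_smul, b.lie_e_f_ne i j hij, smul_zero, smul_zero]

variable [DecidableEq ι]

/-- The pieces of the grading by the root lattice, with the action of the involutions. -/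
def piece (τ : ι → L ≃ₗ⁅K⁆ L) (n : ι → ℤ) : Submodule K L where
  carrier := {x | (∀ y : H, ⁅(y : L), x⁆ = (∑ i, n i • b.baseSupp i) y • x) ∧
    ∀ j, τ j x = ((-1 : K) ^ n j) • x}
  add_mem' := by
    rintro x y ⟨hx, hx'⟩ ⟨hy, hy'⟩
    exact ⟨fun z => by rw [lie_add, hx, hy, smul_add], fun j => by rw [map_add, hx', hy', smul_add]⟩
  zero_mem' := ⟨fun z => by rw [lie_zero, smul_zero], fun j => by rw [map_zero, smul_zero]⟩
  smul_mem' := by
    rintro c x ⟨hx, hx'⟩
    exact ⟨fun z => by rw [lie_smul, hx, smul_comm], fun j => by rw [map_smul, hx', smul_comm]⟩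

theorem piece_lie (τ : ι → L ≃ₗ⁅K⁆ L) {n m : ι → ℤ} {x y : L} (hx : x ∈ piece b τ n)
    (hy : y ∈ piece b τ m) : ⁅x, y⁆ ∈ piece b τ (n + m) := by
  constructor
  · intro z
    rw [leibniz_lie, hx.1, hy.1, smul_lie, lie_smul, ← add_smul, ← LinearMap.add_apply,
      ← Finset.sum_add_distrib]
    congr 2
    exact Finset.sum_congr rfl fun i _ => by rw [Pi.add_apply, add_smul]
  · intro j
    rw [LieEquiv.map_lie, hx.2, hy.2, smul_lie, lie_smul, smul_smul, Pi.add_apply,
      zpow_add₀ (by norm_num)]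

theorem piece_sup (τ : ι → L ≃ₗ⁅K⁆ L) (he : ∀ j i, τ j (b.e i) = sg K j i • b.e i)
    (hf : ∀ j i, τ j (b.f i) = sg K j i • b.f i) : ⨆ n, piece b τ n = ⊤ := by
  rw [eq_top_iff]
  rintro x -
  have hx : x ∈ LieSubalgebra.lieSpan K L (range b.e ∪ range b.f) := by
    rw [b.span_ef]
    exact LieSubalgebra.mem_top _
  have hsg : ∀ i j : ι, sg K j i = (-1 : K) ^ (Pi.single i 1 : ι → ℤ) j := by
    intro i j
    unfold sg
    rw [Pi.single_apply]
    by_cases h : i = j
    · rw [if_pos h, if_pos h.symm, zpow_one]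
    · rw [if_neg h, if_neg (Ne.symm h), zpow_zero]
  have hsum : ∀ i, ∑ j, (Pi.single i 1 : ι → ℤ) j • b.baseSupp j = b.baseSupp i := by
    intro i
    rw [Finset.sum_eq_single i]
    · rw [Pi.single_eq_same, one_smul]
    · intro j _ hj
      rw [Pi.single_eq_of_ne hj, zero_smul]
    · intro h
      exact absurd (Finset.mem_univ i) h
  induction hx using LieSubalgebra.lieSpan_induction with
  | mem u hu =>
    rcases hu with ⟨i, rfl⟩ | ⟨i, rfl⟩
    · apply Submodule.mem_iSup_of_mem (Pi.single i 1)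
      constructor
      · intro y
        rw [hsum]
        exact (b.baseSupp_apply_smul_e i y).symm
      · intro j
        rw [he, hsg]
    · apply Submodule.mem_iSup_of_mem (-Pi.single i 1)
      constructor
      · intro y
        have h1 : ∑ j, (-Pi.single i 1 : ι → ℤ) j • b.baseSupp j = -b.baseSupp i := by
          rw [← hsum i, ← Finset.sum_neg_distrib]
          exact Finset.sum_congr rfl fun j _ => by rw [Pi.neg_apply, neg_smul]
        rw [h1, LinearMap.neg_apply, neg_smul, b.baseSupp_apply_smul_f, neg_neg]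
        rfl
      · intro j
        rw [hf, hsg, Pi.neg_apply, zpow_neg]
        congr 1
        rw [← hsg]
        unfold sg
        split_ifs <;> norm_num
  | zero => exact Submodule.zero_mem _
  | add u v _ _ hu hv => exact Submodule.add_mem _ hu hv
  | smul t u _ hu => exact Submodule.smul_mem _ t hu
  | lie u v hu' hv' hu hv =>
    clear hu' hv'
    induction hu using Submodule.iSup_induction' with
    | mem n x hx =>
      induction hv using Submodule.iSup_induction' with
      | mem m y hy => exact Submodule.mem_iSup_of_mem _ (piece_lie b τ hx hy)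
      | zero => rw [lie_zero]; exact Submodule.zero_mem _
      | add y z _ _ hy hz => rw [lie_add]; exact Submodule.add_mem _ hy hz
    | zero => rw [zero_lie]; exact Submodule.zero_mem _
    | add x z _ _ hx hz => rw [add_lie]; exact Submodule.add_mem _ hx hz

/-- Fixed vectors of the sign automorphisms lie in the even pieces. -/
theorem mem_even (τ : ι → L ≃ₗ⁅K⁆ L) (hsup : ⨆ n, piece b τ n = ⊤) {x : L}
    (hx : ∀ j, τ j x = x) (s : Finset ι) :
    x ∈ ⨆ n : {n : ι → ℤ // ∀ j ∈ s, Even (n j)}, piece b τ n.1 := by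
  induction s using Finset.induction_on with
  | empty =>
    have h1 : x ∈ ⨆ n, piece b τ n := by rw [hsup]; exact Submodule.mem_top
    refine (iSup_le fun n => ?_ : ⨆ n, piece b τ n ≤ _) h1
    exact le_iSup (fun n : {n : ι → ℤ // ∀ j ∈ (∅ : Finset ι), Even (n j)} => piece b τ n.1)
      ⟨n, by simp⟩
  | insert j s hj ih =>
    have key : ∀ y ∈ ⨆ n : {n : ι → ℤ // ∀ j ∈ s, Even (n j)}, piece b τ n.1,
        y + τ j y ∈ ⨆ n : {n : ι → ℤ // ∀ i ∈ insert j s, Even (n i)}, piece b τ n.1 := by
      intro y hy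
      induction hy using Submodule.iSup_induction' with
      | mem n y hy =>
        rw [hy.2 j]
        rcases Int.even_or_odd (n.1 j) with h | h
        · rw [h.neg_one_zpow, one_smul]
          have hmem : y ∈ ⨆ n : {n : ι → ℤ // ∀ i ∈ insert j s, Even (n i)}, piece b τ n.1 := by
            refine Submodule.mem_iSup_of_mem ⟨n.1, ?_⟩ hy
            intro i hi
            rcases Finset.mem_insert.1 hi with rfl | hi
            · exact h
            · exact n.2 i hi
          exact Submodule.add_mem _ hmem hmem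
        · rw [h.neg_one_zpow, neg_smul, one_smul, add_neg_cancel]
          exact Submodule.zero_mem _
      | zero => rw [map_zero, add_zero]; exact Submodule.zero_mem _
      | add y z _ _ hy hz =>
        rw [map_add, add_add_add_comm]
        exact Submodule.add_mem _ hy hz
    have h1 := key x ih
    rw [hx j, ← two_smul K] at h1
    have h2 := Submodule.smul_mem _ (2 : K)⁻¹ h1
    rwa [smul_smul, inv_mul_cancel₀ two_ne_zero, one_smul] at h2

/-- The even pieces lie in the Cartan subalgebra. -/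
theorem even_piece_le [IsKilling K L] (htr : letI := b.isCartanSubalgebra
    IsTriangularizable K H L) (τ : ι → L ≃ₗ⁅K⁆ L) (n : ι → ℤ) (hn : ∀ j, Even (n j)) {x : L}
    (hx : x ∈ piece b τ n) : x ∈ H := by
  let := b.isCartanSubalgebra
  let := htr
  by_contra hxH
  obtain ⟨w, hw⟩ : ∃ w : Dual K H, w = ∑ i, n i • b.baseSupp i := ⟨_, rfl⟩
  have hx1 : x ∈ rootSpace H (w : H → K) := by
    rw [LieModule.mem_genWeightSpace]
    intro y
    refine ⟨1, ?_⟩
    have h1 := hx.1 y
    rw [← hw] at h1
    rw [pow_one, LinearMap.sub_apply, LieModule.toEnd_apply_apply]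
    have h2 : ⁅y, x⁆ = ⁅(y : L), x⁆ := rfl
    rw [h2, h1]
    simp
  have hx0 : x ≠ 0 := by
    rintro rfl
    exact hxH H.zero_mem
  by_cases h0 : w = 0
  · rw [h0] at hx1
    apply hxH
    have h2 : x ∈ rootSpace H (0 : H → K) := hx1
    rw [rootSpace_zero_eq] at h2
    exact h2
  · have hne : rootSpace H (w : H → K) ≠ ⊥ := by
      intro h
      rw [h] at hx1
      exact hx0 (by simpa using hx1)
    let χ : Weight K H L := ⟨_, hne⟩
    have hχ0 : (χ : H → K) = w := rfl
    have hχ : χ.IsNonZero := by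
      intro hz
      apply h0
      have h3 : (χ : H → K) = 0 := hz
      rw [hχ0] at h3
      apply LinearMap.ext
      intro y
      exact congrFun h3 y
    obtain ⟨m, hm⟩ : ∃ m : ι → ℤ, ∀ j, n j = 2 * m j := by
      choose m hm using hn
      exact ⟨m, fun j => by rw [hm j]; ring⟩
    apply no_double (H := H) ⟨χ, by simpa using hχ⟩ (∑ i, m i • b.baseSupp i)
    · apply Submodule.sum_mem
      intro i _
      apply Submodule.smul_mem
      exact Submodule.subset_span ⟨b.baseSupp' i, rfl⟩
    · apply LinearMap.ext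
      intro y
      have h3 : w = (2 : ℤ) • ∑ i, m i • b.baseSupp i := by
        rw [hw, Finset.smul_sum]
        exact Finset.sum_congr rfl fun i _ => by rw [smul_smul, hm]
      rw [← h3]
      rfl

end Gen

/-- A finite set of commuting involutive automorphisms without common fixed vector. -/
theorem exists_involutions (K L : Type*) [Field K] [IsAlgClosed K] [CharZero K] [LieRing L]
    [LieAlgebra K L] [FiniteDimensional K L] [LieAlgebra.IsSimple K L] :
    ∃ T : List (L ≃ₗ⁅K⁆ L), (∀ t ∈ T, ∀ x, t (t x) = x) ∧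
      (∀ t ∈ T, ∀ s ∈ T, ∀ x, t (s x) = s (t x)) ∧ ∀ x, (∀ t ∈ T, t x = x) → x = 0 := by
  classical
  obtain ⟨x₀, hx₀⟩ := LieAlgebra.exists_isCartanSubalgebra_engel K L
  obtain ⟨H, hHx⟩ : ∃ H : LieSubalgebra K L, H = LieSubalgebra.engel K x₀ := ⟨_, rfl⟩
  rw [← hHx] at hx₀
  obtain ⟨n, ⟨b⟩⟩ := exists_basis (K := K) H
  obtain ⟨σ, hσ⟩ := exists_aut b b.symm rfl
  have hτ : ∀ j, ∃ φ : L ≃ₗ⁅K⁆ L, ∀ i, φ (b.e i) = sg K j i • b.e i ∧
      φ (b.f i) = sg K j i • b.f i := fun j => exists_aut b (flipB b j) rfl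
  choose τ hτe using hτ
  have hσe : ∀ i, σ (b.e i) = b.f i := fun i => (hσ i).1
  have hσf : ∀ i, σ (b.f i) = b.e i := fun i => (hσ i).2
  have hττ : ∀ j k x, τ j (τ k x) = τ k (τ j x) := by
    intro j k
    refine eq_of_gens b ((τ j : L →ₗ⁅K⁆ L).comp (τ k : L →ₗ⁅K⁆ L))
      ((τ k : L →ₗ⁅K⁆ L).comp (τ j : L →ₗ⁅K⁆ L)) ?_ ?_
    · intro i
      change τ j (τ k (b.e i)) = τ k (τ j (b.e i))
      rw [(hτe k i).1, (hτe j i).1, map_smul, map_smul, (hτe k i).1, (hτe j i).1, smul_comm]
    · intro i
      change τ j (τ k (b.f i)) = τ k (τ j (b.f i))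
      rw [(hτe k i).2, (hτe j i).2, map_smul, map_smul, (hτe k i).2, (hτe j i).2, smul_comm]
  have hτ2 : ∀ j x, τ j (τ j x) = x := by
    intro j
    refine eq_of_gens b ((τ j : L →ₗ⁅K⁆ L).comp (τ j : L →ₗ⁅K⁆ L)) (LieHom.id) ?_ ?_
    · intro i
      change τ j (τ j (b.e i)) = b.e i
      rw [(hτe j i).1, map_smul, (hτe j i).1, smul_smul, sg_mul_self, one_smul]
    · intro i
      change τ j (τ j (b.f i)) = b.f i
      rw [(hτe j i).2, map_smul, (hτe j i).2, smul_smul, sg_mul_self, one_smul]
  have hσ2 : ∀ x, σ (σ x) = x := by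
    refine eq_of_gens b ((σ : L →ₗ⁅K⁆ L).comp (σ : L →ₗ⁅K⁆ L)) (LieHom.id) ?_ ?_
    · intro i
      change σ (σ (b.e i)) = b.e i
      rw [hσe, hσf]
    · intro i
      change σ (σ (b.f i)) = b.f i
      rw [hσf, hσe]
  have hστ : ∀ j x, σ (τ j x) = τ j (σ x) := by
    intro j
    refine eq_of_gens b ((σ : L →ₗ⁅K⁆ L).comp (τ j : L →ₗ⁅K⁆ L))
      ((τ j : L →ₗ⁅K⁆ L).comp (σ : L →ₗ⁅K⁆ L)) ?_ ?_
    · intro i
      change σ (τ j (b.e i)) = τ j (σ (b.e i))
      rw [(hτe j i).1, map_smul, hσe, (hτe j i).2]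
    · intro i
      change σ (τ j (b.f i)) = τ j (σ (b.f i))
      rw [(hτe j i).2, map_smul, hσf, (hτe j i).1]
  have hσH : ∀ x ∈ H, σ x = -x := by
    intro x hx
    have hx' : x ∈ Submodule.span K (range b.h) := by
      rwa [← b.coe_cartan_eq_span]
    induction hx' using Submodule.span_induction with
    | mem y hy =>
      obtain ⟨i, rfl⟩ := hy
      rw [← (b.sl2 i).lie_e_f, LieEquiv.map_lie, hσe, hσf, lie_skew]
    | zero => rw [map_zero, neg_zero]
    | add y z hy hz ihy ihz =>
      rw [← b.coe_cartan_eq_span] at hy hz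
      rw [map_add, ihy hy, ihz hz, neg_add]
    | smul c y hy ihy =>
      rw [← b.coe_cartan_eq_span] at hy
      rw [map_smul, ihy hy, smul_neg]
  refine ⟨σ :: List.ofFn τ, ?_, ?_, ?_⟩
  · intro t ht x
    rcases List.mem_cons.1 ht with rfl | ht
    · exact hσ2 x
    · obtain ⟨j, rfl⟩ := List.mem_ofFn.1 ht
      exact hτ2 j x
  · intro t ht s hs x
    rcases List.mem_cons.1 ht with rfl | ht
    · rcases List.mem_cons.1 hs with rfl | hs
      · rfl
      · obtain ⟨j, rfl⟩ := List.mem_ofFn.1 hs
        exact hστ j x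
    · obtain ⟨k, rfl⟩ := List.mem_ofFn.1 ht
      rcases List.mem_cons.1 hs with rfl | hs
      · exact (hστ k x).symm
      · obtain ⟨j, rfl⟩ := List.mem_ofFn.1 hs
        exact hττ k j x
  · intro x hx
    have h1 : ∀ j, τ j x = x := by
      intro j
      apply hx
      exact List.mem_cons_of_mem _ (List.mem_ofFn.2 ⟨j, rfl⟩)
    have h2 : σ x = x := hx σ (List.mem_cons_self)
    have h3 := mem_even b τ (piece_sup b τ (fun j i => (hτe j i).1) fun j i => (hτe j i).2) h1
      Finset.univ
    have h4 : x ∈ H := by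
      have h5 : ∀ y ∈ ⨆ n : {n : Fin n → ℤ // ∀ j ∈ Finset.univ, Even (n j)}, piece b τ n.1,
          y ∈ H := by
        intro y hy
        induction hy using Submodule.iSup_induction' with
        | mem m y hy =>
          exact even_piece_le b inferInstance τ m.1 (fun j => m.2 j (Finset.mem_univ j)) hy
        | zero => exact H.zero_mem
        | add y z _ _ hy hz => exact H.add_mem hy hz
      exact h5 x h3
    have h5 := hσH x h4
    rw [h2] at h5
    have h6 : (2 : K) • x = 0 := by
      rw [two_smul]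
      nth_rw 1 [h5]
      exact neg_add_cancel x
    exact (smul_eq_zero.1 h6).resolve_left two_ne_zero

end Pool.Agent.Lib.MP_d55432_al.GS
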