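import Mathlib

/-!
# Existence of a basis (in the sense of `LieAlgebra.Basis`) of a split semisimple Lie algebra
-/

namespace Pool.Agent.Lib.MP_d55432_al.GS

open LieAlgebra LieModule Module LieAlgebra.IsKilling

variable {K L : Type*} [Field K] [CharZero K] [LieRing L] [LieAlgebra K L]
  [IsKilling K L] [FiniteDimensional K L]
  {H : LieSubalgebra K L} [H.IsCartanSubalgebra] [IsTriangularizable K H L]

theorem exists_smul_of_rootSpace (α : Weight K H L) (hα : α.IsNonZero) {x y : L}
    (hx : x ∈ rootSpace H α) (hx0 : x ≠ 0) (hy : y ∈ rootSpace H α) : ∃ c : K, y = c • x := by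
  obtain ⟨k, hk⟩ : ∃ k : K, k • x = y := by
    simpa using (finrank_eq_one_iff_of_nonzero' (⟨x, hx⟩ : rootSpace H α)
      (by simpa using hx0)).mp (finrank_rootSpace_eq_one _ hα) ⟨_, hy⟩
  exact ⟨k, hk.symm⟩

theorem lie_ne_zero (α β : Weight K H L) (hα : α.IsNonZero) (hβ : β.IsNonZero)
    (h : rootSpace H ((α : H → K) + β) ≠ ⊥) {x y : L} (hx : x ∈ rootSpace H α) (hx0 : x ≠ 0)
    (hy : y ∈ rootSpace H β) (hy0 : y ≠ 0) : ⁅x, y⁆ ≠ 0 := by
  have hα' : (-α).IsNonZero := hα.neg
  obtain ⟨v, hv, v_ne0⟩ := (chainTop (-α : Weight K H L) β).exists_ne_zero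
  obtain ⟨h', e, f, isSl2, he, hf⟩ := exists_isSl2Triple_of_weight_isNonZero hα'
  obtain rfl := isSl2.h_eq_coroot hα' he hf
  have prim : isSl2.HasPrimitiveVectorWith v (chainLength (-α) β : K) :=
    have := lie_mem_genWeightSpace_of_mem_genWeightSpace he hv
    ⟨v_ne0, (chainLength_smul _ _ hv).symm, by rwa [genWeightSpace_add_chainTop _ _ hα'] at this⟩
  have h1 : (1 : ℤ) ≤ chainBotCoeff (-α : Weight K H L) β := by
    apply le_chainBotCoeff_of_rootSpace_ne_top (-α) β hα' 1
    simpa using h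
  have h2 := chainTopCoeff_add_chainBotCoeff (-α) β
  set q := chainTopCoeff (-α : Weight K H L) β with hq
  have h3 : q + 1 ≤ chainLength (-α) β := by
    have h1' : 1 ≤ chainBotCoeff (-α : Weight K H L) β := by exact_mod_cast h1
    omega
  have hne := prim.pow_toEnd_f_ne_zero_of_eq_nat rfl h3
  have hmem := toEnd_pow_apply_mem hf hv q
  have hne' := prim.pow_toEnd_f_ne_zero_of_eq_nat rfl (Nat.le_of_succ_le h3)
  set w := (toEnd K L L f ^ q) v with hw
  have hfα : f ∈ rootSpace H α := by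
    have : (-(-α : Weight K H L) : H → K) = α := by
      rw [Weight.coe_neg, neg_neg]
    rw [this] at hf
    exact hf
  have hwβ : w ∈ rootSpace H β := by
    have : (q • (-(-α : Weight K H L) : H → K) + chainTop (-α : Weight K H L) β : H → K) = β := by
      rw [coe_chainTop', ← hq, smul_neg]
      abel
    rw [this] at hmem
    exact hmem
  obtain ⟨c, hc⟩ := exists_smul_of_rootSpace α hα hx hx0 hfα
  obtain ⟨d, hd⟩ := exists_smul_of_rootSpace β hβ hy hy0 hwβ
  intro h0
  apply hne
  rw [pow_succ', Module.End.mul_apply, ← hw, toEnd_apply_apply, hc, hd, smul_lie, lie_smul, h0,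
    smul_zero, smul_zero]

end Pool.Agent.Lib.MP_d55432_al.GS
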