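import Pool.Agent.Lib.MP_d55432_al.GS.H87.LBasis

/-!
# Existence of a basis (in the sense of `LieAlgebra.Basis`) of a split semisimple Lie algebra
-/

namespace Pool.Agent.Lib.MP_d55432_al.GS

open LieAlgebra LieModule Module LieAlgebra.IsKilling

variable {K L : Type*} [Field K] [CharZero K] [LieRing L] [LieAlgebra K L]
  [IsKilling K L] [FiniteDimensional K L]
  {H : LieSubalgebra K L} [H.IsCartanSubalgebra] [IsTriangularizable K H L]

theorem rootSpace_le_of_mem (M : LieSubalgebra K L) (α : Weight K H L) (hα : α.IsNonZero) {x : L}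
    (hx : x ∈ rootSpace H α) (hx0 : x ≠ 0) (hxM : x ∈ M) :
    ∀ y ∈ rootSpace H α, y ∈ M := by
  intro y hy
  obtain ⟨c, rfl⟩ := exists_smul_of_rootSpace α hα hx hx0 hy
  exact M.smul_mem c hxM

theorem rootSpace_le_of_add (M : LieSubalgebra K L) (α β γ : Weight K H L) (hα : α.IsNonZero)
    (hβ : β.IsNonZero) (hγ : γ.IsNonZero) (h : (γ : H → K) = α + β)
    (hαM : ∀ y ∈ rootSpace H α, y ∈ M) (hβM : ∀ y ∈ rootSpace H β, y ∈ M) :
    ∀ y ∈ rootSpace H γ, y ∈ M := by
  obtain ⟨x, hx, hx0⟩ := α.exists_ne_zero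
  obtain ⟨y, hy, hy0⟩ := β.exists_ne_zero
  have h1 : rootSpace H ((α : H → K) + β) ≠ ⊥ := by
    rw [← h]
    exact γ.genWeightSpace_ne_bot
  have h2 := lie_ne_zero α β hα hβ h1 hx hx0 hy hy0
  have h3 : ⁅x, y⁆ ∈ rootSpace H γ := by
    rw [h]
    exact lie_mem_genWeightSpace_of_mem_genWeightSpace hx hy
  exact rootSpace_le_of_mem M γ hγ h3 h2 (M.lie_mem (hαM x hx) (hβM y hy))

theorem coe_root_add {i j k : H.root}
    (hk : (rootSystem H).root k = (rootSystem H).root i + (rootSystem H).root j) :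
    (k.1 : H → K) = (i.1 : H → K) + (j.1 : H → K) := by
  funext x
  exact LinearMap.congr_fun hk x

theorem coe_reflectionPerm_self (i : H.root) :
    ((rootSystem H).reflectionPerm i i).1 = -i.1 := by
  apply DFunLike.coe_injective
  funext x
  have h2 := LinearMap.congr_fun ((rootSystem H).root_reflectionPerm i i) x
  rw [RootPairing.reflection_apply_self] at h2
  exact h2

/-- If a Lie subalgebra contains the simple root spaces and their opposites, then it is
everything. -/
theorem key_of_simple (B : (rootSystem H).Base) (M : LieSubalgebra K L)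
    (h : ∀ i ∈ B.support, (∀ y ∈ rootSpace H (i.1 : H → K), y ∈ M) ∧
      ∀ y ∈ rootSpace H ((-i.1 : Weight K H L) : H → K), y ∈ M) (i : H.root) :
    (∀ y ∈ rootSpace H (i.1 : H → K), y ∈ M) ∧
      ∀ y ∈ rootSpace H ((-i.1 : Weight K H L) : H → K), y ∈ M := by
  refine B.induction_add i (p := fun i => (∀ y ∈ rootSpace H (i.1 : H → K), y ∈ M) ∧
      ∀ y ∈ rootSpace H ((-i.1 : Weight K H L) : H → K), y ∈ M) ?_ h ?_
  · intro i hi
    rw [coe_reflectionPerm_self, neg_neg]
    exact ⟨hi.2, hi.1⟩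
  · intro i j k hk hi hj
    have hj' := h j hj
    have h2 := coe_root_add hk
    have hi0 := LieSubalgebra.isNonZero_coe_root i
    have hj0 := LieSubalgebra.isNonZero_coe_root j
    have hk0 := LieSubalgebra.isNonZero_coe_root k
    refine ⟨rootSpace_le_of_add M i.1 j.1 k.1 hi0 hj0 hk0 h2 hi.1 hj'.1, ?_⟩
    refine rootSpace_le_of_add M (-i.1) (-j.1) (-k.1) hi0.neg hj0.neg hk0.neg ?_ hi.2 hj'.2
    rw [Weight.coe_neg, Weight.coe_neg, Weight.coe_neg, h2, neg_add]

theorem eq_top_of_simple (B : (rootSystem H).Base) (M : LieSubalgebra K L)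
    (h : ∀ i ∈ B.support, (∀ y ∈ rootSpace H (i.1 : H → K), y ∈ M) ∧
      ∀ y ∈ rootSpace H ((-i.1 : Weight K H L) : H → K), y ∈ M) : M = ⊤ := by
  have key := key_of_simple B M h
  have hH : ∀ x : H, (x : L) ∈ M := by
    intro x
    have hx : x ∈ Submodule.span K (Set.range (rootSystem H).coroot) := by
      rw [RootPairing.IsRootSystem.span_coroot_eq_top]
      exact Submodule.mem_top
    induction hx using Submodule.span_induction with
    | mem x hx =>
      obtain ⟨i, rfl⟩ := hx
      rw [rootSystem_coroot_apply]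
      have hi0 := LieSubalgebra.isNonZero_coe_root i
      obtain ⟨h', e, f, isSl2, he, hf⟩ := exists_isSl2Triple_of_weight_isNonZero hi0
      rw [← isSl2.h_eq_coroot hi0 he hf, ← isSl2.lie_e_f]
      exact M.lie_mem ((key i).1 e he) ((key i).2 f hf)
    | zero => exact M.zero_mem
    | add x y _ _ hx hy => exact M.add_mem hx hy
    | smul c x _ hx => exact M.smul_mem c hx
  rw [eq_top_iff]
  have h1 := LieModule.iSup_genWeightSpace_eq_top' K H L
  have h2 : (⊤ : Submodule K L) ≤ M.toSubmodule := by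
    have h3 : ((⨆ χ : Weight K H L, genWeightSpace L χ : LieSubmodule K H L) :
        Submodule K L) = ⊤ := by
      rw [h1]
      rfl
    rw [← h3, LieSubmodule.iSup_toSubmodule, iSup_le_iff]
    intro χ
    by_cases hχ : χ.IsZero
    · intro y hy
      have h4 : y ∈ rootSpace H (0 : H → K) := by
        have : (χ : H → K) = 0 := hχ
        rw [← this]
        exact hy
      rw [rootSpace_zero_eq] at h4
      exact hH ⟨y, h4⟩
    · intro y hy
      exact (key ⟨χ, by simpa using hχ⟩).1 y hy
  intro x _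
  exact h2 (Submodule.mem_top)

theorem span_coroot_simple (B : (rootSystem H).Base) :
    Submodule.span K (Set.range fun i : B.support => ((coroot i.1.1 : H) : L)) =
      H.toSubmodule := by
  have h1 := B.span_coroot_support
  have h2 : (rootSystem H).corootSpan K = ⊤ := RootPairing.IsRootSystem.span_coroot_eq_top
  rw [h2] at h1
  have h3 := congrArg (Submodule.map H.toSubmodule.subtype) h1
  rw [Submodule.map_span, Submodule.map_top, Submodule.range_subtype] at h3
  rw [← h3]
  congr 1
  ext x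
  constructor
  · rintro ⟨i, rfl⟩
    exact ⟨coroot i.1.1, ⟨i.1, i.2, rfl⟩, rfl⟩
  · rintro ⟨y, ⟨i, hi, rfl⟩, rfl⟩
    exact ⟨⟨i, hi⟩, rfl⟩

theorem lie_coroot_mem {α β : Weight K H L} {x : L} (hx : x ∈ rootSpace H (β : H → K)) :
    ⁅((coroot α : H) : L), x⁆ = β (coroot α) • x :=
  lie_eq_smul_of_mem_rootSpace hx (coroot α)

theorem cartan_apply (B : (rootSystem H).Base) (i j : B.support) :
    ((B.cartanMatrix i j : ℤ) : K) = i.1.1 (coroot j.1.1) := by
  have := B.algebraMap_cartanMatrixIn_apply ℤ i j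
  exact this

theorem lie_e_f_zero (B : (rootSystem H).Base) {i j : H.root} (hi : i ∈ B.support)
    (hj : j ∈ B.support) (hij : i ≠ j) {e f : L} (he : e ∈ rootSpace H (i.1 : H → K))
    (hf : f ∈ rootSpace H ((-j.1 : Weight K H L) : H → K)) : ⁅e, f⁆ = 0 := by
  have h1 := lie_mem_genWeightSpace_of_mem_genWeightSpace he hf
  by_contra h0
  have h2 : rootSpace H ((i.1 : H → K) + ((-j.1 : Weight K H L) : H → K)) ≠ ⊥ := by
    intro h3
    have h4 : ⁅e, f⁆ ∈ rootSpace H ((i.1 : H → K) + ((-j.1 : Weight K H L) : H → K)) := h1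
    rw [h3] at h4
    exact h0 h4
  let χ : Weight K H L := ⟨_, h2⟩
  have hχ : (χ : H → K) = (i.1 : H → K) + ((-j.1 : Weight K H L) : H → K) := rfl
  have hχ0 : χ.IsNonZero := by
    intro hz
    have h3 : (χ : H → K) = 0 := hz
    rw [hχ, Weight.coe_neg, ← sub_eq_add_neg, sub_eq_zero] at h3
    exact hij (Subtype.ext (DFunLike.coe_injective h3))
  have h4 := B.sub_notMem_range_root hi hj
  apply h4
  refine ⟨⟨χ, by simpa using hχ0⟩, ?_⟩
  apply LinearMap.ext
  intro x
  have h5 := congrFun hχ x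
  rw [Weight.coe_neg, ← sub_eq_add_neg] at h5
  exact h5

/-- A split semisimple Lie algebra has a basis. -/
theorem exists_basis (H : LieSubalgebra K L) [H.IsCartanSubalgebra] [IsTriangularizable K H L] :
    ∃ (n : ℕ), Nonempty (LieAlgebra.Basis (Fin n) H) := by
  classical
  obtain ⟨B⟩ := (rootSystem H).nonempty_base
  let g : Fin (Fintype.card B.support) ≃ B.support := (Fintype.equivFin _).symm
  have hsl : ∀ i : B.support, ∃ e f : L, IsSl2Triple ((coroot i.1.1 : H) : L) e f ∧
      e ∈ rootSpace H (i.1.1 : H → K) ∧ f ∈ rootSpace H ((-i.1.1 : Weight K H L) : H → K) := by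
    intro i
    have hi0 := LieSubalgebra.isNonZero_coe_root i.1
    obtain ⟨h', e, f, isSl2, he, hf⟩ := exists_isSl2Triple_of_weight_isNonZero hi0
    refine ⟨e, f, ?_, he, hf⟩
    rw [← isSl2.h_eq_coroot hi0 he hf]
    exact isSl2
  choose e f hef he hf using hsl
  have hspan := span_coroot_simple B
  have hhh : ∀ x y : H, ⁅(x : L), (y : L)⁆ = 0 := by
    intro x y
    have := trivial_lie_zero H H x y
    exact congrArg Subtype.val this
  have hcoe : (LieSubalgebra.lieSpan K L (Set.range fun i : B.support =>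
      ((coroot i.1.1 : H) : L)) : Submodule K L) = Submodule.span K (Set.range fun i : B.support =>
      ((coroot i.1.1 : H) : L)) := by
    apply LieSubalgebra.coe_lieSpan_eq_span_of_forall_lie_eq_zero
    rintro - ⟨i, rfl⟩ - ⟨j, rfl⟩
    exact hhh _ _
  have hrange : ∀ {X : Type _} (φ : B.support → X),
      Set.range (fun i => φ (g i)) = Set.range φ := fun φ => g.surjective.range_comp φ
  refine ⟨Fintype.card B.support, ⟨{
    A := B.cartanMatrix.submatrix g g
    h := fun i => ((coroot (g i).1.1 : H) : L)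
    e := fun i => e (g i)
    f := fun i => f (g i)
    cartan_eq_lieSpan := ?_
    span_ef := ?_
    linInd := ?_
    nondegen := ?_
    sl2 := fun i => hef (g i)
    lie_h_h := fun i j => hhh _ _
    lie_h_e := ?_
    lie_h_f := ?_
    lie_e_f_ne := ?_ }⟩⟩
  · rw [hrange (fun i => ((coroot i.1.1 : H) : L)), ← LieSubalgebra.toSubmodule_inj, hcoe, hspan]
  · rw [hrange e, hrange f]
    apply eq_top_of_simple B
    intro i hi
    have hi0 := LieSubalgebra.isNonZero_coe_root i
    constructor
    · exact rootSpace_le_of_mem _ i.1 hi0 (he ⟨i, hi⟩) (hef ⟨i, hi⟩).e_ne_zero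
        (LieSubalgebra.subset_lieSpan (Or.inl ⟨⟨i, hi⟩, rfl⟩))
    · exact rootSpace_le_of_mem _ (-i.1) hi0.neg (hf ⟨i, hi⟩) (hef ⟨i, hi⟩).f_ne_zero
        (LieSubalgebra.subset_lieSpan (Or.inr ⟨⟨i, hi⟩, rfl⟩))
  · have h1 := B.linearIndepOn_coroot
    have h2 : LinearIndependent K fun i : B.support => (coroot i.1.1 : H) := h1
    have h3 : LinearIndependent K fun i : B.support => ((coroot i.1.1 : H) : L) :=
      h2.map' H.toSubmodule.subtype (Submodule.ker_subtype _)
    exact h3.comp g g.injective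
  · have h1 := B.cartanMatrix_nondegenerate
    have h2 : (B.cartanMatrix.submatrix g g).det ≠ 0 := by
      rw [Matrix.det_submatrix_equiv_self]
      exact h1.det_ne_zero
    exact Matrix.nondegenerate_iff_det_ne_zero.2 h2
  · intro i j
    change ⁅((coroot (g j).1.1 : H) : L), e (g i)⁆ = B.cartanMatrix (g i) (g j) • e (g i)
    rw [lie_coroot_mem (he (g i)), ← cartan_apply, Int.cast_smul_eq_zsmul]
  · intro i j
    change ⁅((coroot (g j).1.1 : H) : L), f (g i)⁆ = -B.cartanMatrix (g i) (g j) • f (g i)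
    rw [lie_coroot_mem (hf (g i)), neg_smul, ← Int.cast_smul_eq_zsmul K, cartan_apply]
    rw [Weight.coe_neg, Pi.neg_apply, neg_smul]
  · intro i j hij
    exact lie_e_f_zero B (g i).2 (g j).2 (fun h => hij (g.injective (Subtype.ext h))) (he _) (hf _)

end Pool.Agent.Lib.MP_d55432_al.GS
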