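import Pool.Agent.Lib.MP_d55432_al.GS.H87.Invol

/-!
# Joint eigenspaces of the involutions contain no nilpotent elements
-/

set_option linter.unusedSectionVars false

namespace Pool.Agent.Lib.MP_d55432_al.GS

open LieAlgebra LieModule Module LieAlgebra.IsKilling Set

variable {K L : Type*} [Field K] [CharZero K] [LieRing L] [LieAlgebra K L]
  [FiniteDimensional K L] [IsKilling K L]

/-- A list of commuting involutive automorphisms without common fixed vector. -/
structure IsInvol (T : List (L ≃ₗ⁅K⁆ L)) : Prop where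
  invol : ∀ t ∈ T, ∀ x, t (t x) = x
  comm : ∀ t ∈ T, ∀ s ∈ T, ∀ x, t (s x) = s (t x)
  fix : ∀ x, (∀ t ∈ T, t x = x) → x = 0

theorem exists_average {T : List (L ≃ₗ⁅K⁆ L)} (hT : IsInvol T) (χ : (L ≃ₗ⁅K⁆ L) → K)
    (hχ : ∀ t ∈ T, χ t * χ t = 1) {x : L} (hx : ∀ t ∈ T, t x = χ t • x) (y : L)
    (l : List (L ≃ₗ⁅K⁆ L)) (hl : ∀ t ∈ l, t ∈ T) :
    ∃ z, killingForm K L x z = killingForm K L x y ∧ ∀ t ∈ l, t z = χ t • z := by
  induction l with
  | nil => exact ⟨y, rfl, by simp⟩
  | cons t l ih =>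
    obtain ⟨z, hz1, hz2⟩ := ih fun s hs => hl s (List.mem_cons_of_mem _ hs)
    have ht : t ∈ T := hl t List.mem_cons_self
    refine ⟨(2 : K)⁻¹ • (z + χ t • t z), ?_, ?_⟩
    · have h1 : killingForm K L x (t z) = χ t * killingForm K L x z := by
        have h2 := killingForm_of_equiv_apply t x (t z)
        rw [hT.invol t ht, hx t ht, map_smul, LinearMap.smul_apply, smul_eq_mul] at h2
        exact h2.symm
      rw [map_smul, map_add, map_smul, h1, smul_eq_mul, smul_eq_mul, ← mul_assoc, hχ t ht,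
        one_mul, ← two_mul, ← mul_assoc, inv_mul_cancel₀ two_ne_zero, one_mul, hz1]
    · intro s hs
      rcases List.mem_cons.1 hs with rfl | hs
      · have h1 : χ s • (z + χ s • s z) = s z + χ s • z := by
          rw [smul_add, smul_smul, hχ s ht, one_smul, add_comm]
        rw [map_smul, map_add, map_smul, hT.invol s ht, smul_comm (χ s) (2 : K)⁻¹, h1]
      · have h1 : χ s • (z + χ t • t z) = χ s • z + χ t • χ s • t z := by
          rw [smul_add, smul_comm (χ t) (χ s)]
        rw [map_smul, map_add, map_smul, ← hT.comm t ht s (hl s (List.mem_cons_of_mem _ hs)),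
          hz2 s hs, map_smul, smul_comm (χ s) (2 : K)⁻¹, h1]

/-- A nilpotent element in a joint eigenspace is zero. -/
theorem nil_eq_zero {T : List (L ≃ₗ⁅K⁆ L)} (hT : IsInvol T) (χ : (L ≃ₗ⁅K⁆ L) → K)
    (hχ : ∀ t ∈ T, χ t * χ t = 1) {x : L} (hx : ∀ t ∈ T, t x = χ t • x)
    (hnil : IsNilpotent (ad K L x)) : x = 0 := by
  have key : ∀ y, killingForm K L x y = 0 := by
    intro y
    obtain ⟨z, hz1, hz2⟩ := exists_average hT χ hχ hx y T fun t ht => ht
    rw [← hz1]
    have h1 : ⁅x, z⁆ = 0 := by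
      apply hT.fix
      intro t ht
      rw [LieEquiv.map_lie, hx t ht, hz2 t ht, smul_lie, lie_smul, smul_smul, hχ t ht, one_smul]
    have h2 : Commute (ad K L x) (ad K L z) := by
      apply LinearMap.ext
      intro v
      change ⁅x, ⁅z, v⁆⁆ = ⁅z, ⁅x, v⁆⁆
      rw [leibniz_lie, h1, zero_lie, zero_add]
    rw [killingForm_apply_apply]
    have h3 : IsNilpotent (ad K L x ∘ₗ ad K L z) := h2.isNilpotent_mul_right hnil
    exact (LinearMap.isNilpotent_trace_of_isNilpotent h3).eq_zero
  have h1 : x ∈ LinearMap.ker (killingForm K L) := by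
    rw [LinearMap.mem_ker]
    exact LinearMap.ext key
  rw [ker_killingForm_eq_bot] at h1
  simpa using h1

end Pool.Agent.Lib.MP_d55432_al.GS
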