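import Pool.Agent.Lib.MP_d55432_al.Homog
import Pool.Agent.Lib.MP_d55432_al.GS.H87.Nil

/-!
# Lowest coefficients of polynomial maps along an involution
-/

namespace Pool.Agent.Lib.MP_d55432_al.GS

open LieAlgebra LieModule Module Set

section Expand

variable {K : Type*} [Field K] {L : Type*} [LieRing L] [LieAlgebra K L] {σ : Type*}

/-- Evaluation of a polynomial with coefficients in the polynomial functions. -/
noncomputable def ev (s : K) (a : σ → L) : Polynomial (PolyFun K L σ) →+* K :=
  ((Pi.evalRingHom (fun _ : σ → L => K) a).comp (PolyFun K L σ).val.toRingHom).comp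
    (Polynomial.evalRingHom (algebraMap K (PolyFun K L σ) s))

theorem ev_C (s : K) (a : σ → L) (c : PolyFun K L σ) :
    ev s a (Polynomial.C c) = (c : (σ → L) → K) a := by
  change ((Polynomial.eval (algebraMap K (PolyFun K L σ) s) (Polynomial.C c) : PolyFun K L σ) :
    (σ → L) → K) a = _
  rw [Polynomial.eval_C]

theorem ev_X (s : K) (a : σ → L) : ev s a Polynomial.X = s := by
  change ((Polynomial.eval (algebraMap K (PolyFun K L σ) s) Polynomial.X : PolyFun K L σ) :
    (σ → L) → K) a = _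
  rw [Polynomial.eval_X]
  rfl

theorem ev_eq_sum (s : K) (a : σ → L) (P : Polynomial (PolyFun K L σ)) {N : ℕ}
    (hN : P.natDegree < N) :
    ev s a P = ∑ k ∈ Finset.range N, s ^ k * (P.coeff k : (σ → L) → K) a := by
  conv_lhs => rw [P.as_sum_range' N hN]
  rw [map_sum]
  refine Finset.sum_congr rfl fun k _ => ?_
  rw [← Polynomial.C_mul_X_pow_eq_monomial, map_mul, map_pow, ev_C, ev_X, mul_comm]

theorem expand_fun (p q : L →ₗ[K] L) {g : (σ → L) → K} (hg : g ∈ PolyFun K L σ) :
    ∃ P : Polynomial (PolyFun K L σ), ∀ (s : K) (a : σ → L),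
      g (fun i => p (a i) + s • q (a i)) = ev s a P := by
  induction hg using Algebra.adjoin_induction with
  | mem g hg =>
    obtain ⟨i, ψ, rfl⟩ := hg
    refine ⟨Polynomial.C ⟨_, PolyFun_coord i (ψ ∘ₗ p)⟩ +
      Polynomial.C ⟨_, PolyFun_coord i (ψ ∘ₗ q)⟩ * Polynomial.X, fun s a => ?_⟩
    rw [map_add, map_mul, ev_C, ev_C, ev_X]
    change ψ (p (a i) + s • q (a i)) = ψ (p (a i)) + ψ (q (a i)) * s
    rw [map_add, map_smul, smul_eq_mul, mul_comm]
  | algebraMap c =>
    refine ⟨Polynomial.C (algebraMap K _ c), fun s a => ?_⟩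
    rw [ev_C]
    rfl
  | add g h _ _ ihg ihh =>
    obtain ⟨P, hP⟩ := ihg
    obtain ⟨Q, hQ⟩ := ihh
    exact ⟨P + Q, fun s a => by rw [Pi.add_apply, hP, hQ, map_add]⟩
  | mul g h _ _ ihg ihh =>
    obtain ⟨P, hP⟩ := ihg
    obtain ⟨Q, hQ⟩ := ihh
    exact ⟨P * Q, fun s a => by rw [Pi.mul_apply, hP, hQ, map_mul]⟩

theorem expand [FiniteDimensional K L] (p q : L →ₗ[K] L) {h : (σ → L) → L}
    (hh : IsPolyMap K h) :
    ∃ (N : ℕ) (hk : ℕ → (σ → L) → L), (∀ k, IsPolyMap K (hk k)) ∧
      ∀ (s : K) (a : σ → L), h (fun i => p (a i) + s • q (a i)) =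
        ∑ k ∈ Finset.range N, s ^ k • hk k a := by
  classical
  let e := Module.finBasis K L
  have h1 : ∀ i, ∃ P : Polynomial (PolyFun K L σ), ∀ (s : K) (a : σ → L),
      e.coord i (h (fun i => p (a i) + s • q (a i))) = ev s a P :=
    fun i => expand_fun p q (hh (e.coord i))
  choose P hP using h1
  let N := (Finset.univ.sup fun i => (P i).natDegree) + 1
  have hN : ∀ i, (P i).natDegree < N := fun i =>
    Nat.lt_succ_of_le (Finset.le_sup (f := fun i => (P i).natDegree) (Finset.mem_univ i))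
  refine ⟨N, fun k a => ∑ i, (((P i).coeff k : PolyFun K L σ) : (σ → L) → K) a • e i, ?_, ?_⟩
  · intro k ψ
    have h2 : (fun a : σ → L => ψ (∑ i, (((P i).coeff k : PolyFun K L σ) : (σ → L) → K) a • e i)) =
        ∑ i, ψ (e i) • (((P i).coeff k : PolyFun K L σ) : (σ → L) → K) := by
      funext a
      rw [map_sum, Finset.sum_apply]
      refine Finset.sum_congr rfl fun i _ => ?_
      rw [map_smul, Pi.smul_apply, smul_eq_mul, smul_eq_mul, mul_comm]
    rw [h2]
    exact Subalgebra.sum_mem _ fun i _ => Subalgebra.smul_mem _ ((P i).coeff k).2 _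
  · intro s a
    conv_lhs => rw [← e.sum_repr (h fun i => p (a i) + s • q (a i))]
    have h3 : ∀ i, e.repr (h fun i => p (a i) + s • q (a i)) i =
        ∑ k ∈ Finset.range N, s ^ k * ((P i).coeff k : (σ → L) → K) a := by
      intro i
      rw [← ev_eq_sum s a (P i) (hN i), ← hP i s a]
      rfl
    simp only [h3, Finset.sum_smul, Finset.smul_sum, smul_smul]
    exact Finset.sum_comm

theorem coeff_zero [Infinite K] {V : Type*} [AddCommGroup V] [Module K V] {N : ℕ} {v : ℕ → V}
    (h : ∀ s : K, s ≠ 0 → ∑ k ∈ Finset.range N, s ^ k • v k = 0) : ∀ k < N, v k = 0 := by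
  intro k hk
  rw [← Module.forall_dual_apply_eq_zero_iff K]
  intro ψ
  let P : Polynomial K := ∑ k ∈ Finset.range N, Polynomial.C (ψ (v k)) * Polynomial.X ^ k
  have hP : P = 0 := by
    apply Polynomial.eq_zero_of_infinite_isRoot
    refine Set.Infinite.mono (s := {s : K | s ≠ 0}) ?_ ?_
    · intro s hs
      change P.eval s = 0
      have h1 := congrArg ψ (h s hs)
      rw [map_sum, map_zero] at h1
      rw [← h1, Polynomial.eval_finsetSum]
      refine Finset.sum_congr rfl fun k _ => ?_
      rw [Polynomial.eval_mul, Polynomial.eval_C, Polynomial.eval_pow, Polynomial.eval_X,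
        map_smul, smul_eq_mul, mul_comm]
    · exact (Set.finite_singleton (0 : K)).infinite_compl
  have h2 : P.coeff k = ψ (v k) := by
    rw [Polynomial.finsetSum_coeff, Finset.sum_eq_single k]
    · rw [Polynomial.coeff_C_mul, Polynomial.coeff_X_pow, if_pos rfl, mul_one]
    · intro j _ hj
      rw [Polynomial.coeff_C_mul, Polynomial.coeff_X_pow, if_neg (Ne.symm hj), mul_zero]
    · intro h
      exact absurd (Finset.mem_range.2 hk) h
  rw [← h2, hP, Polynomial.coeff_zero]

theorem coeff_eq [Infinite K] {V : Type*} [AddCommGroup V] [Module K V] {N : ℕ} {v w : ℕ → V}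
    (h : ∀ s : K, s ≠ 0 → ∑ k ∈ Finset.range N, s ^ k • v k = ∑ k ∈ Finset.range N, s ^ k • w k) :
    ∀ k < N, v k = w k := by
  intro k hk
  refine sub_eq_zero.1 (coeff_zero (K := K) (v := fun k => v k - w k) (N := N)
    (fun s hs => ?_) k hk)
  have h1 := sub_eq_zero.2 (h s hs)
  rw [← Finset.sum_sub_distrib] at h1
  rw [← h1]
  exact Finset.sum_congr rfl fun k _ => smul_sub _ _ _

/-- Polynomial curves. -/
def IsPC (K : Type*) [Field K] {V : Type*} [AddCommGroup V] [Module K V] (u : K → V) : Prop :=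
  ∀ ψ : Module.Dual K V, ∃ P : Polynomial K, ∀ s, ψ (u s) = P.eval s

theorem IsPC.const (K : Type*) [Field K] {V : Type*} [AddCommGroup V] [Module K V] (v : V) : IsPC K (fun _ => v) :=
  fun ψ => ⟨Polynomial.C (ψ v), fun s => by rw [Polynomial.eval_C]⟩

theorem IsPC.sum {V : Type*} [AddCommGroup V] [Module K V] (N : ℕ) (v : ℕ → V) :
    IsPC K (fun s : K => ∑ k ∈ Finset.range N, s ^ k • v k) := by
  intro ψ
  refine ⟨∑ k ∈ Finset.range N, Polynomial.C (ψ (v k)) * Polynomial.X ^ k, fun s => ?_⟩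
  rw [map_sum, Polynomial.eval_finsetSum]
  refine Finset.sum_congr rfl fun k _ => ?_
  rw [Polynomial.eval_mul, Polynomial.eval_C, Polynomial.eval_pow, Polynomial.eval_X,
    map_smul, smul_eq_mul, mul_comm]

theorem IsPC.lie [FiniteDimensional K L] {u w : K → L} (hu : IsPC K u) (hw : IsPC K w) :
    IsPC K (fun s => ⁅u s, w s⁆) := by
  intro ψ
  let e := Module.finBasis K L
  choose P hP using fun i => hu (e.coord i)
  choose Q hQ using fun i => hw (e.coord i)
  refine ⟨∑ i, ∑ j, Polynomial.C (ψ ⁅e i, e j⁆) * (P i * Q j), fun s => ?_⟩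
  change ψ ⁅u s, w s⁆ = _
  conv_lhs => rw [← e.sum_repr (u s), ← e.sum_repr (w s), sum_lie, map_sum]
  rw [Polynomial.eval_finsetSum]
  refine Finset.sum_congr rfl fun i _ => ?_
  rw [lie_sum, map_sum, Polynomial.eval_finsetSum]
  refine Finset.sum_congr rfl fun j _ => ?_
  rw [smul_lie, lie_smul, map_smul, map_smul, smul_eq_mul, smul_eq_mul, Polynomial.eval_mul,
    Polynomial.eval_C, Polynomial.eval_mul, ← hP, ← hQ, Basis.coord_apply, Basis.coord_apply]
  ring

theorem IsPC.zero [Infinite K] {V : Type*} [AddCommGroup V] [Module K V] {u : K → V}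
    (hu : IsPC K u) (h : ∀ s, s ≠ 0 → u s = 0) : u 0 = 0 := by
  rw [← Module.forall_dual_apply_eq_zero_iff K]
  intro ψ
  obtain ⟨P, hP⟩ := hu ψ
  have hP0 : P = 0 := by
    apply Polynomial.eq_zero_of_infinite_isRoot
    refine Set.Infinite.mono (s := {s : K | s ≠ 0}) ?_ ?_
    · intro s hs
      change P.eval s = 0
      rw [← hP, h s hs, map_zero]
    · exact (Set.finite_singleton (0 : K)).infinite_compl
  rw [hP, hP0, Polynomial.eval_zero]

theorem pow_finrank_eq_zero {V : Type*} [AddCommGroup V] [Module K V] [FiniteDimensional K V]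
    {φ : Module.End K V} (h : IsNilpotent φ) : φ ^ Module.finrank K V = 0 := by
  have h1 := LinearMap.aeval_self_charpoly φ
  rw [h.charpoly_eq_X_pow_finrank, map_pow, Polynomial.aeval_X] at h1
  exact h1

/-- Limits of nilpotent elements along polynomial curves are nilpotent. -/
theorem nil_limit [Infinite K] [FiniteDimensional K L] {u : K → L} (hu : IsPC K u)
    (h : ∀ s, s ≠ 0 → IsNilpotent (ad K L (u s))) : IsNilpotent (ad K L (u 0)) := by
  refine ⟨Module.finrank K L, ?_⟩
  apply LinearMap.ext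
  intro v
  have h1 : ∀ d : ℕ, IsPC K (fun s => ((ad K L (u s)) ^ d) v) := by
    intro d
    induction d with
    | zero => simpa using IsPC.const K v
    | succ d ih =>
      have h2 := hu.lie ih
      have h3 : (fun s => ((ad K L (u s)) ^ (d + 1)) v) =
          fun s => ⁅u s, ((ad K L (u s)) ^ d) v⁆ := by
        funext s
        rw [pow_succ', Module.End.mul_apply, ad_apply]
      rw [h3]
      exact h2
  refine (h1 (Module.finrank K L)).zero fun s hs => ?_
  rw [pow_finrank_eq_zero (h s hs), LinearMap.zero_apply]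

end Expand

end Pool.Agent.Lib.MP_d55432_al.GS
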